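import Mathlib

set_option autoImplicit false

/-!
The Grassmannian of `10`-planes in the projective space of `5 × 5` matrices, with its Zariski
topology, and the Fano scheme of `10`-planes in the variety of the `5 × 5` matrices of rank at
most `3`, on the level of points over an algebraically closed field.
-/

namespace Pool.Agent.X320.D4

open Matrix Module

/-- the index set of the coordinates of a sequence of eleven `5 × 5` matrices -/
abbrev Idx : Type := Fin 11 × Fin 5 × Fin 5

/-- The eleven matrices with the given `11 * 25` coordinates. -/
def mats {K : Type*} (v : Idx → K) (k : Fin 11) : Matrix (Fin 5) (Fin 5) K :=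
  Matrix.of fun i j => v (k, i, j)

/-- The open set of the affine space of dimension `11 * 25` that consists of the linearly
independent sequences of eleven `5 × 5` matrices. -/
def Frames (K : Type*) [Field K] : Type _ := {v : Idx → K // LinearIndependent K (mats v)}

/-- The Zariski topology on the set of frames: a frame is a point of the affine space with
coordinate ring `K[x_i]`, and the topology is induced by that of `Spec K[x_i]`. -/
noncomputable instance (K : Type*) [Field K] : TopologicalSpace (Frames K) :=
  TopologicalSpace.induced (fun v : Frames K =>
    (MvPolynomial.pointToPoint v.1 : PrimeSpectrum (MvPolynomial Idx K))) inferInstance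

/-- The Grassmannian of the projective `10`-planes in `P^24`: the set of the linear subspaces of
dimension `11` of the `25`-dimensional space of `5 × 5` matrices. -/
def Gr (K : Type*) [Field K] : Type _ :=
  {V : Submodule K (Matrix (Fin 5) (Fin 5) K) // finrank K V = 11}

/-- The subspace spanned by a frame. -/
def toGr {K : Type*} [Field K] (v : Frames K) : Gr K :=
  ⟨Submodule.span K (Set.range (mats v.1)), by
    rw [finrank_span_eq_card v.2, Fintype.card_fin]⟩

/-- The Zariski topology on the Grassmannian: it is the quotient topology of that of the set of
frames, of which the Grassmannian is the quotient by the general linear group. -/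
noncomputable instance (K : Type*) [Field K] : TopologicalSpace (Gr K) :=
  TopologicalSpace.coinduced toGr inferInstance

/-- The `K`-points of the Fano scheme `F_10(D^4_{5,5})`: the subspaces all of whose elements have
vanishing `4 × 4` minors. -/
def Fano (K : Type*) [Field K] : Set (Gr K) :=
  {V | ∀ A ∈ V.1, ∀ r c : Fin 4 → Fin 5, (A.submatrix r c).det = 0}

end Pool.Agent.X320.D4
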