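import Mathlib

set_option autoImplicit false

/-!
Polynomial functions on vector spaces, seen on lines.
-/

namespace Pool.Agent.X320.D4

variable {K : Type*} [Field K] {V : Type*} [AddCommGroup V] [Module K V]

/-- the function is polynomial on every line -/
def IsPoly (f : V → K) : Prop := ∀ a b : V, ∃ p : Polynomial K, ∀ t : K, f (a + t • b) = p.eval t

lemma IsPoly.lin (f : V →ₗ[K] K) : IsPoly (fun v => f v) := fun a b =>
  ⟨Polynomial.C (f a) + Polynomial.C (f b) * Polynomial.X, fun t => by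
    beta_reduce
    rw [map_add, map_smul, smul_eq_mul, Polynomial.eval_add, Polynomial.eval_mul,
      Polynomial.eval_C, Polynomial.eval_C, Polynomial.eval_X, mul_comm t]⟩

lemma IsPoly.const (c : K) : IsPoly (fun _ : V => c) := fun _ _ =>
  ⟨Polynomial.C c, fun t => by simp⟩

lemma IsPoly.add {f g : V → K} (hf : IsPoly f) (hg : IsPoly g) : IsPoly (fun v => f v + g v) :=
  fun a b => by
    obtain ⟨p, hp⟩ := hf a b
    obtain ⟨q, hq⟩ := hg a b
    exact ⟨p + q, fun t => by beta_reduce; rw [hp, hq, Polynomial.eval_add]⟩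

lemma IsPoly.sub {f g : V → K} (hf : IsPoly f) (hg : IsPoly g) : IsPoly (fun v => f v - g v) :=
  fun a b => by
    obtain ⟨p, hp⟩ := hf a b
    obtain ⟨q, hq⟩ := hg a b
    exact ⟨p - q, fun t => by beta_reduce; rw [hp, hq, Polynomial.eval_sub]⟩

lemma IsPoly.mul {f g : V → K} (hf : IsPoly f) (hg : IsPoly g) : IsPoly (fun v => f v * g v) :=
  fun a b => by
    obtain ⟨p, hp⟩ := hf a b
    obtain ⟨q, hq⟩ := hg a b
    exact ⟨p * q, fun t => by beta_reduce; rw [hp, hq, Polynomial.eval_mul]⟩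

lemma IsPoly.eq_zero_or [Infinite K] {f g : V → K} (hf : IsPoly f) (hg : IsPoly g)
    (h : ∀ v, f v * g v = 0) : (∀ v, f v = 0) ∨ ∀ v, g v = 0 := by
  by_contra hcon
  push Not at hcon
  obtain ⟨⟨a, ha⟩, b, hb⟩ := hcon
  obtain ⟨p, hp⟩ := hf a (b - a)
  obtain ⟨q, hq⟩ := hg a (b - a)
  have h1 : p * q = 0 := by
    apply Polynomial.funext
    intro t
    rw [Polynomial.eval_mul, ← hp, ← hq, h, Polynomial.eval_zero]
  rcases mul_eq_zero.1 h1 with h2 | h2
  · apply ha
    have := hp 0
    rw [h2] at this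
    simpa using this
  · apply hb
    have := hq 1
    rw [h2] at this
    simpa using this

/-- coefficients of a polynomial function of one variable which vanishes identically -/
lemma coeff_zero_of_forall [Infinite K] {n : ℕ} (a : Fin n → K)
    (h : ∀ t : K, ∑ i, a i * t ^ (i : ℕ) = 0) (i : Fin n) : a i = 0 := by
  let p : Polynomial K := ∑ i, Polynomial.C (a i) * Polynomial.X ^ (i : ℕ)
  have hp : p = 0 := by
    apply Polynomial.funext
    intro t
    rw [Polynomial.eval_zero, ← h t]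
    simp [p, Polynomial.eval_finsetSum]
  have h2 : p.coeff (i : ℕ) = a i := by
    simp only [p, Polynomial.finsetSum_coeff, Polynomial.coeff_C_mul, Polynomial.coeff_X_pow]
    rw [Finset.sum_eq_single i]
    · simp
    · intro j _ hj
      rw [if_neg (fun h => hj (Fin.ext h.symm)), mul_zero]
    · intro h
      exact absurd (Finset.mem_univ _) h
  rw [← h2, hp, Polynomial.coeff_zero]

/-- two functionals are jointly surjective or dependent -/
lemma pair_surj_or (f g : V →ₗ[K] K) :
    (∃ u v : V, f u = 1 ∧ g u = 0 ∧ f v = 0 ∧ g v = 1) ∨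
    ∃ a b : K, (a ≠ 0 ∨ b ≠ 0) ∧ ∃ h : V →ₗ[K] K, f = a • h ∧ g = b • h := by
  by_cases hf : f = 0
  · right
    exact ⟨0, 1, Or.inr one_ne_zero, g, by simp [hf], by simp⟩
  · obtain ⟨u, hu⟩ : ∃ u, f u ≠ 0 := by
      by_contra hcon
      push Not at hcon
      exact hf (LinearMap.ext hcon)
    by_cases hk : ∀ v, f v = 0 → g v = 0
    · right
      refine ⟨1, g u / f u, Or.inl one_ne_zero, f, by simp, ?_⟩
      ext v
      have h1 : f (v - (f v / f u) • u) = 0 := by
        rw [map_sub, map_smul, smul_eq_mul, div_mul_cancel₀ _ hu, sub_self]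
      have h2 := hk _ h1
      rw [map_sub, map_smul, smul_eq_mul, sub_eq_zero] at h2
      rw [h2, LinearMap.smul_apply, smul_eq_mul]
      field_simp
    · left
      push Not at hk
      obtain ⟨v, hv, hgv⟩ := hk
      refine ⟨(f u)⁻¹ • (u - (g u / g v) • v), (g v)⁻¹ • v, ?_, ?_, ?_, ?_⟩
      · rw [map_smul, map_sub, map_smul, hv]
        simp [hu]
      · rw [map_smul, map_sub, map_smul, smul_eq_mul, smul_eq_mul, div_mul_cancel₀ _ hgv, sub_self,
          mul_zero]
      · rw [map_smul, hv, smul_zero]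
      · rw [map_smul, smul_eq_mul, inv_mul_cancel₀ hgv]

/-- Two rows of linear forms with vanishing `2 × 2` minors. -/
lemma rank_one_rows {n : ℕ} (r₀ r₁ : V →ₗ[K] (Fin n → K))
    (h : ∀ v a b, r₀ v a * r₁ v b = r₀ v b * r₁ v a) :
    (∃ (c₀ c₁ : K) (ξ : V →ₗ[K] (Fin n → K)), (c₀ ≠ 0 ∨ c₁ ≠ 0) ∧ r₀ = c₀ • ξ ∧ r₁ = c₁ • ξ) ∨
    ∃ (γ : Fin n → K) (z₀ z₁ : V →ₗ[K] K), γ ≠ 0 ∧ (∀ v, r₀ v = z₀ v • γ) ∧ ∀ v, r₁ v = z₁ v • γ := by
  -- polarisation
  have hp : ∀ u v a b, r₀ u a * r₁ v b + r₀ v a * r₁ u b = r₀ u b * r₁ v a + r₀ v b * r₁ u a := by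
    intro u v a b
    have h1 := h (u + v) a b
    have h2 := h u a b
    have h3 := h v a b
    simp only [map_add, Pi.add_apply] at h1
    linear_combination h1 - h2 - h3
  by_cases h0 : r₀ = 0
  · left
    exact ⟨0, 1, r₁, Or.inr one_ne_zero, by simp [h0], by simp⟩
  obtain ⟨u, hu⟩ : ∃ u, r₀ u ≠ 0 := by
    by_contra hcon
    push Not at hcon
    exact h0 (LinearMap.ext hcon)
  obtain ⟨a₀, ha₀⟩ := Function.ne_iff.1 hu
  rw [Pi.zero_apply] at ha₀
  -- all `r₀ v` proportional to `r₀ u`?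
  by_cases hall : ∀ v b, r₀ v b * r₀ u a₀ = r₀ v a₀ * r₀ u b
  · right
    have h1 : ∀ b, r₁ u b * r₀ u a₀ = r₁ u a₀ * r₀ u b := by
      intro b
      have := h u a₀ b
      linear_combination this
    have h2 : ∀ v b, r₁ v b * r₀ u a₀ = r₁ v a₀ * r₀ u b := by
      intro v b
      have e1 := hp u v a₀ b
      have e2 := hall v b
      have e3 := h1 b
      -- r0 u a0 * r1 v b + r0 v a0 * r1 u b = r0 u b * r1 v a0 + r0 v b * r1 u a0
      have e4 : r₀ u a₀ * (r₁ v b * r₀ u a₀ - r₁ v a₀ * r₀ u b) = 0 := by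
        linear_combination (r₀ u a₀) * e1 - (r₀ v a₀) * e3 + (r₁ u a₀) * e2
      have := (mul_eq_zero.1 e4).resolve_left ha₀
      linear_combination this
    refine ⟨r₀ u, (r₀ u a₀)⁻¹ • (LinearMap.proj a₀ ∘ₗ r₀), (r₀ u a₀)⁻¹ • (LinearMap.proj a₀ ∘ₗ r₁),
      hu, ?_, ?_⟩
    · intro v
      ext b
      have := hall v b
      simp only [LinearMap.smul_apply, LinearMap.comp_apply, LinearMap.proj_apply, Pi.smul_apply,
        smul_eq_mul]
      field_simp
      linear_combination this
    · intro v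
      ext b
      have := h2 v b
      simp only [LinearMap.smul_apply, LinearMap.comp_apply, LinearMap.proj_apply, Pi.smul_apply,
        smul_eq_mul]
      field_simp
      linear_combination this
  · left
    push Not at hall
    obtain ⟨w, b₀, hw⟩ := hall
    -- `r₁ u = c r₀ u`
    set c := r₁ u a₀ / r₀ u a₀ with hc
    have hcu : r₁ u a₀ = c * r₀ u a₀ := by rw [hc]; field_simp
    -- s = r₁ - c r₀
    let s : V →ₗ[K] (Fin n → K) := r₁ - c • r₀
    have hs : ∀ v b, s v b = r₁ v b - c * r₀ v b := fun v b => by simp [s]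
    have hsu : ∀ b, s u b = 0 := by
      intro b
      rw [hs]
      have e1 := h u a₀ b
      have e2 : r₀ u a₀ * (r₁ u b - c * r₀ u b) = 0 := by
        linear_combination e1 + r₀ u b * hcu
      exact (mul_eq_zero.1 e2).resolve_left ha₀
    have hss : ∀ v a b, r₀ v a * s v b = r₀ v b * s v a := by
      intro v a b
      rw [hs, hs]
      linear_combination h v a b
    have hsp : ∀ v v' a b, r₀ v a * s v' b + r₀ v' a * s v b = r₀ v b * s v' a + r₀ v' b * s v a := by
      intro v v' a b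
      simp only [hs]
      linear_combination hp v v' a b
    have hsv : ∀ v b, r₀ u a₀ * s v b = r₀ u b * s v a₀ := by
      intro v b
      have := hsp u v a₀ b
      rw [hsu, hsu] at this
      linear_combination this
    -- `s w = 0`
    have hsw0 : s w a₀ = 0 := by
      have e1 := hss w a₀ b₀
      have e2 := hsv w b₀
      have e3 : (r₀ w b₀ * r₀ u a₀ - r₀ w a₀ * r₀ u b₀) * s w a₀ = 0 := by
        linear_combination (-r₀ u a₀) * e1 + (r₀ w a₀) * e2
      exact (mul_eq_zero.1 e3).resolve_left (sub_ne_zero.2 hw)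
    have hsw : ∀ b, s w b = 0 := by
      intro b
      have e2 := hsv w b
      rw [hsw0, mul_zero] at e2
      exact (mul_eq_zero.1 e2).resolve_left ha₀
    have hsz : ∀ v b, s v b = 0 := by
      have h0' : ∀ v, s v a₀ = 0 := by
        intro v
        have e1 := hsp w v a₀ b₀
        rw [hsw, hsw] at e1
        have e2 := hsv v b₀
        have e3 : (r₀ w b₀ * r₀ u a₀ - r₀ w a₀ * r₀ u b₀) * s v a₀ = 0 := by
          linear_combination (-r₀ u a₀) * e1 + (r₀ w a₀) * e2
        exact (mul_eq_zero.1 e3).resolve_left (sub_ne_zero.2 hw)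
      intro v b
      have e2 := hsv v b
      rw [h0', mul_zero] at e2
      exact (mul_eq_zero.1 e2).resolve_left ha₀
    refine ⟨1, c, r₀, Or.inl one_ne_zero, by simp, ?_⟩
    ext v b
    have := hsz v b
    rw [hs, sub_eq_zero] at this
    simpa using this

end Pool.Agent.X320.D4
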