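import Mathlib
import Pool.Agent.X320.D4.Class

set_option autoImplicit false

namespace Pool.Agent.X320.D4

open Matrix

variable {K : Type*} [Field K] {V : Type*} [AddCommGroup V] [Module K V] [Infinite K]

/-- equations when `x` has a common covector -/
lemma Dat.eqs_A (D : Dat K V) (hx : ∀ B i, D.x B i 0 = 0 ∧ D.x B i 1 = 0)
    (hx0 : ¬ ∀ B, D.x B = 0) :
    (∀ B j, D.y B 2 j = 0) ∧
    (∀ B j, D.m B 2 0 * D.y B 0 j + D.m B 2 1 * D.y B 1 j = 0) ∧
    (∀ B j, D.m B 2 0 * (D.m B 0 0 * D.y B 0 j + D.m B 0 1 * D.y B 1 j) +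
      D.m B 2 1 * (D.m B 1 0 * D.y B 0 j + D.m B 1 1 * D.y B 1 j) = 0) := by
  obtain ⟨B₀, i, hB₀⟩ : ∃ B₀ i, D.x B₀ i 2 ≠ 0 := by
    by_contra hcon
    push Not at hcon
    apply hx0
    intro B
    ext i a
    fin_cases a
    · exact (hx B i).1
    · exact (hx B i).2
    · exact hcon B i
  have e1 : ∀ B j, D.y B 2 j = 0 := by
    intro B j
    have := IsPoly.eq_zero_or (isPoly_ent D.x i 2) (isPoly_ent D.y 2 j) (fun B => by
      have := congrFun (congrFun (D.f1 B) i) j
      rw [Matrix.mul_apply, Fin.sum_univ_three, (hx B i).1, (hx B i).2] at this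
      simpa using this)
    exact (this.resolve_left (fun h => hB₀ (h B₀))) B
  have e2 : ∀ B j, D.m B 2 0 * D.y B 0 j + D.m B 2 1 * D.y B 1 j = 0 := by
    intro B j
    have := IsPoly.eq_zero_or (isPoly_ent D.x i 2)
      (((isPoly_ent D.m 2 0).mul (isPoly_ent D.y 0 j)).add
        ((isPoly_ent D.m 2 1).mul (isPoly_ent D.y 1 j))) (fun B => by
      have := congrFun (congrFun (D.f2 B) i) j
      simp only [Matrix.mul_apply, Fin.sum_univ_three, (hx B i).1, (hx B i).2, e1,
        Matrix.zero_apply] at this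
      linear_combination this)
    exact (this.resolve_left (fun h => hB₀ (h B₀))) B
  refine ⟨e1, e2, ?_⟩
  intro B j
  have := IsPoly.eq_zero_or (isPoly_ent D.x i 2)
    (((isPoly_ent D.m 2 0).mul (((isPoly_ent D.m 0 0).mul (isPoly_ent D.y 0 j)).add
      ((isPoly_ent D.m 0 1).mul (isPoly_ent D.y 1 j)))).add ((isPoly_ent D.m 2 1).mul
      (((isPoly_ent D.m 1 0).mul (isPoly_ent D.y 0 j)).add
      ((isPoly_ent D.m 1 1).mul (isPoly_ent D.y 1 j))))) (fun B => by
    have := congrFun (congrFun (D.f3 B) i) j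
    simp only [Matrix.mul_apply, Fin.sum_univ_three, (hx B i).1, (hx B i).2, e1,
      Matrix.zero_apply] at this
    linear_combination this - D.x B i 2 * D.m B 2 2 * e2 B j)
  exact (this.resolve_left (fun h => hB₀ (h B₀))) B

/-- the functionals of a list of coordinates are injective on a space of small dimension only -/
lemma finrank_le_of_coords [FiniteDimensional K V] {n : ℕ} (f : Fin n → (V →ₗ[K] K))
    (h : ∀ B, (∀ i, f i B = 0) → B = 0) : Module.finrank K V ≤ n := by
  have hinj : Function.Injective (LinearMap.pi f) := by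
    rw [← LinearMap.ker_eq_bot, LinearMap.ker_eq_bot']
    intro B hB
    exact h B (fun i => congrFun hB i)
  have := LinearMap.finrank_le_finrank_of_injective hinj
  simpa using this

/-- the case where all rows of `x` are multiples of the last covector -/
lemma Dat.res_A0 [FiniteDimensional K V] (hV : 11 ≤ Module.finrank K V) (D : Dat K V)
    (hx : ∀ B i, D.x B i 0 = 0 ∧ D.x B i 1 = 0) : D.Res := by
  by_cases hx0 : ∀ B, D.x B = 0
  · exact Or.inl hx0
  obtain ⟨e1, e2, e3⟩ := D.eqs_A hx hx0
  have hT1 : (∀ B, D.m B 2 0 = 0 ∧ D.m B 2 1 = 0) → D.Res := by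
    intro h
    refine Or.inr (Or.inl ⟨![0, 0, 1], ?_, fun B => ⟨⟨fun i => D.x B i 2, ?_⟩, ?_, D.m B 2 2, ?_⟩⟩)
    · intro h0
      have := congrFun h0 2
      simp at this
    · ext i a
      rw [vecMulVec_apply]
      fin_cases a
      · simp [(hx B i).1]
      · simp [(hx B i).2]
      · simp
    · ext j
      simp [Matrix.vecMul, dotProduct, Fin.sum_univ_three, e1]
    · ext j
      fin_cases j
      · simp [Matrix.vecMul, dotProduct, Fin.sum_univ_three, (h B).1]
      · simp [Matrix.vecMul, dotProduct, Fin.sum_univ_three, (h B).2]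
      · simp [Matrix.vecMul, dotProduct, Fin.sum_univ_three]
  by_cases hdet : ∀ B, D.y B 0 0 * D.y B 1 1 - D.y B 0 1 * D.y B 1 0 = 0
  swap
  · -- generic rank two
    push Not at hdet
    obtain ⟨B₀, hB₀⟩ := hdet
    have hp : IsPoly (fun B => D.y B 0 0 * D.y B 1 1 - D.y B 0 1 * D.y B 1 0) :=
      ((isPoly_ent D.y 0 0).mul (isPoly_ent D.y 1 1)).sub
        ((isPoly_ent D.y 0 1).mul (isPoly_ent D.y 1 0))
    have h20 := (IsPoly.eq_zero_or hp (isPoly_ent D.m 2 0) (fun B => by
      linear_combination D.y B 1 1 * e2 B 0 - D.y B 1 0 * e2 B 1)).resolve_left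
      (fun h => hB₀ (h B₀))
    have h21 := (IsPoly.eq_zero_or hp (isPoly_ent D.m 2 1) (fun B => by
      linear_combination D.y B 0 0 * e2 B 1 - D.y B 0 1 * e2 B 0)).resolve_left
      (fun h => hB₀ (h B₀))
    exact hT1 fun B => ⟨h20 B, h21 B⟩
  -- rank at most one
  let r₀ : V →ₗ[K] (Fin 2 → K) := LinearMap.pi fun j => ent D.y 0 j
  let r₁ : V →ₗ[K] (Fin 2 → K) := LinearMap.pi fun j => ent D.y 1 j
  have hr₀ : ∀ B j, r₀ B j = D.y B 0 j := fun B j => rfl
  have hr₁ : ∀ B j, r₁ B j = D.y B 1 j := fun B j => rfl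
  have hminor : ∀ B a b, r₀ B a * r₁ B b = r₀ B b * r₁ B a := by
    intro B a b
    simp only [hr₀, hr₁]
    have := hdet B
    fin_cases a <;> fin_cases b <;> simp <;>
      first | linear_combination this | linear_combination (-1 : K) * this
  rcases rank_one_rows r₀ r₁ hminor with ⟨p, q, β, hpq, h0, h1⟩ | ⟨γ, z₀, z₁, hγ, h0, h1⟩
  · refine D.res_A2a hx e1 e2 e3 p q hpq β (fun B j => ?_) (fun B j => ?_)
    · rw [← hr₀, h0]; rfl
    · rw [← hr₁, h1]; rfl
  · rcases pair_surj_or z₀ z₁ with ⟨B₁, B₂, a1, a2, a3, a4⟩ | ⟨p, q, hpq, h, hp, hq⟩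
    swap
    · refine D.res_A2a hx e1 e2 e3 p q hpq (h.smulRight γ) (fun B j => ?_) (fun B j => ?_)
      · rw [← hr₀, h0, hp]
        simp [mul_assoc]
      · rw [← hr₁, h1, hq]
        simp [mul_assoc]
    -- `z₀, z₁` jointly surjective
    obtain ⟨j, hj⟩ := Function.ne_iff.1 hγ
    rw [Pi.zero_apply] at hj
    have hy0 : ∀ B j, D.y B 0 j = z₀ B * γ j := fun B j => by rw [← hr₀, h0]; rfl
    have hy1 : ∀ B j, D.y B 1 j = z₁ B * γ j := fun B j => by rw [← hr₁, h1]; rfl
    have g2 : ∀ B, D.m B 2 0 * z₀ B + D.m B 2 1 * z₁ B = 0 := by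
      intro B
      have := e2 B j
      rw [hy0, hy1] at this
      have h5 : γ j * (D.m B 2 0 * z₀ B + D.m B 2 1 * z₁ B) = 0 := by linear_combination this
      exact (mul_eq_zero.1 h5).resolve_left hj
    have g3 : ∀ B, D.m B 2 0 * (D.m B 0 0 * z₀ B + D.m B 0 1 * z₁ B) +
        D.m B 2 1 * (D.m B 1 0 * z₀ B + D.m B 1 1 * z₁ B) = 0 := by
      intro B
      have := e3 B j
      rw [hy0, hy1] at this
      have h5 : γ j * (D.m B 2 0 * (D.m B 0 0 * z₀ B + D.m B 0 1 * z₁ B) +
        D.m B 2 1 * (D.m B 1 0 * z₀ B + D.m B 1 1 * z₁ B)) = 0 := by linear_combination this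
      exact (mul_eq_zero.1 h5).resolve_left hj
    -- values at the two points
    have b1 : D.m B₁ 2 0 = 0 := by
      have := g2 B₁
      rw [a1, a2] at this
      linear_combination this
    have b2 : D.m B₂ 2 1 = 0 := by
      have := g2 B₂
      rw [a3, a4] at this
      linear_combination this
    have b3 : D.m B₂ 2 0 + D.m B₁ 2 1 = 0 := by
      have := g2 (B₁ + B₂)
      simp only [map_add, Matrix.add_apply, a1, a2, a3, a4, b1, b2] at this
      linear_combination this
    -- vanishing on the kernel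
    have hk0 : ∀ C, z₀ C = 0 → z₁ C = 0 → D.m C 2 0 = 0 := by
      intro C c1 c2
      have := g2 (B₁ + C)
      simp only [map_add, Matrix.add_apply, a1, a2, c1, c2, b1] at this
      linear_combination this
    have hk1 : ∀ C, z₀ C = 0 → z₁ C = 0 → D.m C 2 1 = 0 := by
      intro C c1 c2
      have := g2 (B₂ + C)
      simp only [map_add, Matrix.add_apply, a3, a4, c1, c2, b2] at this
      linear_combination this
    by_cases ht : D.m B₂ 2 0 = 0
    · -- type one
      have ht' : D.m B₁ 2 1 = 0 := by rw [ht, zero_add] at b3; exact b3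
      apply hT1
      intro B
      have hC0 : z₀ (B - z₀ B • B₁ - z₁ B • B₂) = 0 := by
        simp [a1, a3]
      have hC1 : z₁ (B - z₀ B • B₁ - z₁ B • B₂) = 0 := by
        simp [a2, a4]
      have k0 := hk0 _ hC0 hC1
      have k1 := hk1 _ hC0 hC1
      simp only [map_sub, map_smul, Matrix.sub_apply, Matrix.smul_apply, smul_eq_mul, b1, b2, ht,
        ht', mul_zero, sub_zero] at k0 k1
      exact ⟨k0, k1⟩
    · -- contradiction by dimension
      exfalso
      set t := D.m B₂ 2 0 with htdef
      have ht1 : D.m B₁ 2 1 = -t := by linear_combination b3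
      have hle : Module.finrank K V ≤ 8 := by
        refine finrank_le_of_coords ![z₀, z₁, ent D.x 0 2, ent D.x 1 2, ent D.m 0 0, ent D.m 0 2,
          ent D.m 1 2, ent D.m 2 2] ?_
        intro C hC
        have c0 : z₀ C = 0 := hC 0
        have c1 : z₁ C = 0 := hC 1
        have c2 : D.x C 0 2 = 0 := hC 2
        have c3 : D.x C 1 2 = 0 := hC 3
        have c4 : D.m C 0 0 = 0 := hC 4
        have c5 : D.m C 0 2 = 0 := hC 5
        have c6 : D.m C 1 2 = 0 := hC 6
        have c7 : D.m C 2 2 = 0 := hC 7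
        have k0 := hk0 C c0 c1
        have k1 := hk1 C c0 c1
        have i1 : t * D.m C 1 0 = 0 := by
          have u1 := g3 (B₁ + C)
          have u2 := g3 B₁
          simp only [map_add, Matrix.add_apply, a1, a2, c0, c1, k0, k1, b1, ht1] at u1 u2
          linear_combination u2 - u1
        have i2 : t * D.m C 0 1 = 0 := by
          have u1 := g3 (B₂ + C)
          have u2 := g3 B₂
          simp only [map_add, Matrix.add_apply, a3, a4, c0, c1, k0, k1, b2] at u1 u2
          rw [← htdef] at u1 u2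
          linear_combination u1 - u2
        have i1' := (mul_eq_zero.1 i1).resolve_left ht
        have i2' := (mul_eq_zero.1 i2).resolve_left ht
        have i3 : t * D.m C 1 1 = 0 := by
          have u1 := g3 (B₁ + B₂ + C)
          have u2 := g3 (B₁ + B₂)
          simp only [map_add, Matrix.add_apply, a1, a2, a3, a4, c0, c1, k0, k1, b1, b2, ht1, c4,
            i1', i2'] at u1 u2
          rw [← htdef] at u1 u2
          linear_combination u2 - u1
        have i3' := (mul_eq_zero.1 i3).resolve_left ht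
        refine D.inj C ?_ ?_ ?_
        · ext i j
          fin_cases i <;> fin_cases j <;> simp [c4, c5, c6, c7, k0, k1, i1', i2', i3']
        · ext i j
          fin_cases i <;> fin_cases j <;> simp [c2, c3, (hx C 0).1, (hx C 0).2, (hx C 1).1,
            (hx C 1).2]
        · ext i j
          fin_cases i
          · simp [hy0, c0]
          · simp [hy1, c1]
          · simp [e1]
      omega

end Pool.Agent.X320.D4
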