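import Mathlib
import Pool.Agent.X320.D4.Class2

set_option autoImplicit false

namespace Pool.Agent.X320.D4

open Matrix

variable {K : Type*} [Field K] {V : Type*} [AddCommGroup V] [Module K V] [Infinite K]

omit [Infinite K] in
lemma exists_g (ρ : Fin 3 → K) (hρ : ρ ≠ 0) : ∃ g : Matrix (Fin 3) (Fin 3) K,
    IsUnit g.det ∧ g 2 = ρ := by
  obtain ⟨a, ha⟩ := Function.ne_iff.1 hρ
  rw [Pi.zero_apply] at ha
  fin_cases a
  · refine ⟨!![0, 1, 0; 0, 0, 1; ρ 0, ρ 1, ρ 2], ?_, ?_⟩
    · rw [Matrix.det_fin_three]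
      simpa using ha
    · ext i; fin_cases i <;> rfl
  · refine ⟨!![1, 0, 0; 0, 0, 1; ρ 0, ρ 1, ρ 2], ?_, ?_⟩
    · rw [Matrix.det_fin_three]
      simpa using ha
    · ext i; fin_cases i <;> rfl
  · refine ⟨!![1, 0, 0; 0, 1, 0; ρ 0, ρ 1, ρ 2], ?_, ?_⟩
    · rw [Matrix.det_fin_three]
      simpa using ha
    · ext i; fin_cases i <;> rfl

omit [Infinite K] in
lemma exists_g2 (u v : Fin 3 → K) (h : ∃ a b, u a * v b ≠ u b * v a) :
    ∃ g : Matrix (Fin 3) (Fin 3) K, IsUnit g.det ∧ g 0 = u ∧ g 1 = v := by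
  have key : u 0 * v 1 - u 1 * v 0 ≠ 0 ∨ u 0 * v 2 - u 2 * v 0 ≠ 0 ∨
      u 1 * v 2 - u 2 * v 1 ≠ 0 := by
    by_contra hcon
    push Not at hcon
    obtain ⟨h1, h2, h3⟩ := hcon
    obtain ⟨a, b, hab⟩ := h
    apply hab
    fin_cases a <;> fin_cases b <;> simp <;>
      first | linear_combination h1 | linear_combination (-1 : K) * h1 | linear_combination h2 |
        linear_combination (-1 : K) * h2 | linear_combination h3 | linear_combination (-1 : K) * h3
  rcases key with h | h | h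
  · refine ⟨!![u 0, u 1, u 2; v 0, v 1, v 2; 0, 0, 1], ?_, ?_, ?_⟩
    · rw [Matrix.det_fin_three, isUnit_iff_ne_zero]
      intro h0
      apply h
      simp at h0
      linear_combination h0
    · ext i; fin_cases i <;> rfl
    · ext i; fin_cases i <;> rfl
  · refine ⟨!![u 0, u 1, u 2; v 0, v 1, v 2; 0, 1, 0], ?_, ?_, ?_⟩
    · rw [Matrix.det_fin_three, isUnit_iff_ne_zero]
      intro h0
      apply h
      simp at h0
      linear_combination (-1 : K) * h0
    · ext i; fin_cases i <;> rfl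
    · ext i; fin_cases i <;> rfl
  · refine ⟨!![u 0, u 1, u 2; v 0, v 1, v 2; 1, 0, 0], ?_, ?_, ?_⟩
    · rw [Matrix.det_fin_three, isUnit_iff_ne_zero]
      intro h0
      apply h
      simp at h0
      linear_combination h0
    · ext i; fin_cases i <;> rfl
    · ext i; fin_cases i <;> rfl

omit [Infinite K] in
lemma row_vecMul_inv {g : Matrix (Fin 3) (Fin 3) K} (hg : IsUnit g.det) (i : Fin 3) :
    (g i) ᵥ* g⁻¹ = Pi.single i 1 := by
  have h1 : g i = (Pi.single i 1 : Fin 3 → K) ᵥ* g := by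
    ext j
    simp
  rw [h1, Matrix.vecMul_vecMul, Matrix.mul_nonsing_inv _ hg, Matrix.vecMul_one]

/-- all rows of `x` are multiples of a covector -/
lemma Dat.res_A [FiniteDimensional K V] (hV : 11 ≤ Module.finrank K V) (D : Dat K V)
    (ρ : Fin 3 → K) (hρ : ρ ≠ 0) (hx : ∀ B, ∃ z : Fin 2 → K, D.x B = vecMulVec z ρ) : D.Res := by
  obtain ⟨g, hg, hgρ⟩ := exists_g ρ hρ
  apply Dat.res_of_conj (g := g) (hg := hg)
  apply Dat.res_A0 hV
  intro B i
  obtain ⟨z, hz⟩ := hx B
  rw [Dat.conj_x, hz, Matrix.vecMulVec_mul, ← hgρ, row_vecMul_inv hg]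
  simp [vecMulVec_apply]

/-- the dimension count, in coordinates -/
lemma Dat.core0 [FiniteDimensional K V] (hV : 11 ≤ Module.finrank K V) (D : Dat K V)
    (c : Fin 2 → K) (hc : c ≠ 0) (ξ : V →ₗ[K] (Fin 3 → K))
    (hx : ∀ B, D.x B = vecMulVec c (ξ B)) (B₁ B₂ : V) (h1 : ξ B₁ = Pi.single 0 1)
    (h2 : ξ B₂ = Pi.single 1 1) (j : Fin 2) : D.y B₂ 0 j = 0 := by
  obtain ⟨i, hi⟩ := Function.ne_iff.1 hc
  rw [Pi.zero_apply] at hi
  -- the relations
  have f1 : ∀ B j, ξ B 0 * D.y B 0 j + ξ B 1 * D.y B 1 j + ξ B 2 * D.y B 2 j = 0 := by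
    intro B j
    have := congrFun (congrFun (D.f1 B) i) j
    rw [hx, Matrix.mul_apply, Fin.sum_univ_three] at this
    simp only [vecMulVec_apply, Matrix.zero_apply] at this
    have h5 : c i * (ξ B 0 * D.y B 0 j + ξ B 1 * D.y B 1 j + ξ B 2 * D.y B 2 j) = 0 := by
      linear_combination this
    exact (mul_eq_zero.1 h5).resolve_left hi
  have f2 : ∀ B j, (ξ B 0 * D.m B 0 0 + ξ B 1 * D.m B 1 0 + ξ B 2 * D.m B 2 0) * D.y B 0 j +
      (ξ B 0 * D.m B 0 1 + ξ B 1 * D.m B 1 1 + ξ B 2 * D.m B 2 1) * D.y B 1 j +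
      (ξ B 0 * D.m B 0 2 + ξ B 1 * D.m B 1 2 + ξ B 2 * D.m B 2 2) * D.y B 2 j = 0 := by
    intro B j
    have := congrFun (congrFun (D.f2 B) i) j
    rw [hx] at this
    simp only [Matrix.mul_apply, Fin.sum_univ_three, vecMulVec_apply, Matrix.zero_apply] at this
    have h5 : c i * ((ξ B 0 * D.m B 0 0 + ξ B 1 * D.m B 1 0 + ξ B 2 * D.m B 2 0) * D.y B 0 j +
      (ξ B 0 * D.m B 0 1 + ξ B 1 * D.m B 1 1 + ξ B 2 * D.m B 2 1) * D.y B 1 j +
      (ξ B 0 * D.m B 0 2 + ξ B 1 * D.m B 1 2 + ξ B 2 * D.m B 2 2) * D.y B 2 j) = 0 := by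
      linear_combination this
    exact (mul_eq_zero.1 h5).resolve_left hi
  have p10 : ξ B₁ 0 = 1 := by rw [h1]; simp
  have p11 : ξ B₁ 1 = 0 := by rw [h1]; simp
  have p12 : ξ B₁ 2 = 0 := by rw [h1]; simp
  have p20 : ξ B₂ 0 = 0 := by rw [h2]; simp
  have p21 : ξ B₂ 1 = 1 := by rw [h2]; simp
  have p22 : ξ B₂ 2 = 0 := by rw [h2]; simp
  have q1 : D.y B₁ 0 j = 0 := by
    have := f1 B₁ j
    rw [p10, p11, p12] at this
    linear_combination this
  have q2 : D.y B₂ 1 j = 0 := by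
    have := f1 B₂ j
    rw [p20, p21, p22] at this
    linear_combination this
  have q3 : D.y B₂ 0 j + D.y B₁ 1 j = 0 := by
    have := f1 (B₁ + B₂) j
    simp only [map_add, Pi.add_apply, Matrix.add_apply, p10, p11, p12, p20, p21, p22, q1, q2]
      at this
    linear_combination this
  by_contra hs
  -- elements of the kernel of `ξ`
  have k0 : ∀ C, (∀ a, ξ C a = 0) → ∀ j, D.y C 0 j = 0 := by
    intro C hC j
    have u1 := f1 (B₁ + C) j
    have u2 := f1 B₁ j
    simp only [map_add, Pi.add_apply, Matrix.add_apply, p10, p11, p12, hC] at u1 u2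
    linear_combination u1 - u2
  have k1 : ∀ C, (∀ a, ξ C a = 0) → ∀ j, D.y C 1 j = 0 := by
    intro C hC j
    have u1 := f1 (B₂ + C) j
    have u2 := f1 B₂ j
    simp only [map_add, Pi.add_apply, Matrix.add_apply, p20, p21, p22, hC] at u1 u2
    linear_combination u1 - u2
  -- elements of the kernel with `y = 0`
  have key : ∀ C, (∀ a, ξ C a = 0) → (∀ j, D.y C 2 j = 0) → D.m C 0 2 = 0 → D.m C 1 1 = 0 →
      D.m C 1 2 = 0 → D.m C 2 0 = 0 → D.m C 2 1 = 0 → D.m C 2 2 = 0 → C = 0 := by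
    intro C hC hy c02 c11 c12 c20 c21 c22
    have hy0 := k0 C hC
    have hy1 := k1 C hC
    have e01 : D.y B₂ 0 j * D.m C 0 1 = 0 := by
      have u1 := f2 (B₁ + C) j
      have u2 := f2 B₁ j
      simp only [map_add, Pi.add_apply, Matrix.add_apply, p10, p11, p12, hC, hy0, hy1, hy, q1,
        c02] at u1 u2
      linear_combination u2 - u1 + D.m C 0 1 * q3
    have e10 : D.y B₂ 0 j * D.m C 1 0 = 0 := by
      have u1 := f2 (B₂ + C) j
      have u2 := f2 B₂ j
      simp only [map_add, Pi.add_apply, Matrix.add_apply, p20, p21, p22, hC, hy0, hy1, hy, q2,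
        c12] at u1 u2
      linear_combination u1 - u2
    have e01' := (mul_eq_zero.1 e01).resolve_left hs
    have e10' := (mul_eq_zero.1 e10).resolve_left hs
    have e00 : D.y B₂ 0 j * D.m C 0 0 = 0 := by
      have u1 := f2 (B₁ + B₂ + C) j
      have u2 := f2 (B₁ + B₂) j
      simp only [map_add, Pi.add_apply, Matrix.add_apply, p10, p11, p12, p20, p21, p22, hC, hy0,
        hy1, hy, q1, q2, c02, c12, c11, e01', e10'] at u1 u2
      linear_combination u1 - u2
    have e00' := (mul_eq_zero.1 e00).resolve_left hs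
    refine D.inj C ?_ ?_ ?_
    · ext a b
      fin_cases a <;> fin_cases b <;> simp [c02, c11, c12, c20, c21, c22, e01', e10', e00']
    · rw [hx]
      ext a b
      simp [vecMulVec_apply, hC]
    · ext a b
      fin_cases a
      · simp [hy0]
      · simp [hy1]
      · simp [hy]
  have hle : Module.finrank K V ≤ 10 := by
    by_cases h3 : ∀ B, ξ B 2 = 0
    · refine finrank_le_of_coords ![LinearMap.proj 0 ∘ₗ ξ, LinearMap.proj 1 ∘ₗ ξ, ent D.y 2 0,
        ent D.y 2 1, ent D.m 0 2, ent D.m 1 1, ent D.m 1 2, ent D.m 2 0, ent D.m 2 1,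
        ent D.m 2 2] ?_
      intro C hC
      refine key C ?_ ?_ (hC 4) (hC 5) (hC 6) (hC 7) (hC 8) (hC 9)
      · intro a
        fin_cases a
        · exact hC 0
        · exact hC 1
        · exact h3 C
      · intro j
        fin_cases j
        · exact hC 2
        · exact hC 3
    · push Not at h3
      obtain ⟨B₃, hB₃⟩ := h3
      have : Module.finrank K V ≤ 9 := by
        refine finrank_le_of_coords ![LinearMap.proj 0 ∘ₗ ξ, LinearMap.proj 1 ∘ₗ ξ,
          LinearMap.proj 2 ∘ₗ ξ, ent D.m 0 2, ent D.m 1 1, ent D.m 1 2, ent D.m 2 0,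
          ent D.m 2 1, ent D.m 2 2] ?_
        intro C hC
        have hC' : ∀ a, ξ C a = 0 := by
          intro a
          fin_cases a
          · exact hC 0
          · exact hC 1
          · exact hC 2
        refine key C hC' ?_ (hC 3) (hC 4) (hC 5) (hC 6) (hC 7) (hC 8)
        intro j
        have u1 := f1 (B₃ + C) j
        have u2 := f1 B₃ j
        simp only [map_add, Pi.add_apply, Matrix.add_apply, hC', k0 C hC', k1 C hC'] at u1
        have u3 : ξ B₃ 2 * D.y C 2 j = 0 := by linear_combination u1 - u2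
        exact (mul_eq_zero.1 u3).resolve_left hB₃
      omega
  omega

/-- the dimension count -/
lemma Dat.core [FiniteDimensional K V] (hV : 11 ≤ Module.finrank K V) (D : Dat K V)
    (c : Fin 2 → K) (hc : c ≠ 0) (ξ : V →ₗ[K] (Fin 3 → K))
    (hx : ∀ B, D.x B = vecMulVec c (ξ B)) (B₁ B₂ : V)
    (h : ∃ a b, ξ B₁ a * ξ B₂ b ≠ ξ B₁ b * ξ B₂ a) : ξ B₁ ᵥ* D.y B₂ = 0 := by
  obtain ⟨g, hg, hg0, hg1⟩ := exists_g2 _ _ h
  ext j
  have := Dat.core0 hV (D.conj g hg) c hc ((Matrix.vecMulLinear g⁻¹) ∘ₗ ξ) (fun B => by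
    rw [Dat.conj_x, hx, Matrix.vecMulVec_mul]; rfl) B₁ B₂ (by
      rw [LinearMap.comp_apply, Matrix.vecMulLinear_apply, ← hg0, row_vecMul_inv hg]) (by
      rw [LinearMap.comp_apply, Matrix.vecMulLinear_apply, ← hg1, row_vecMul_inv hg]) j
  rw [Dat.conj_y, Matrix.mul_apply] at this
  rw [Pi.zero_apply, ← this, ← hg0]
  rfl

omit [Infinite K] in
lemma parallel_aux (k₀ k₁ k₂ : K) (y : Matrix (Fin 3) (Fin 2) K)
    (hne : k₀ ≠ 0 ∨ k₁ ≠ 0 ∨ k₂ ≠ 0) (h0 : ∀ j, k₀ * y 1 j = k₁ * y 0 j)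
    (h1 : ∀ j, k₁ * y 2 j = k₂ * y 1 j) (h2 : ∀ j, k₂ * y 0 j = k₀ * y 2 j) :
    ∃ β : Fin 2 → K, ∀ i j, y i j = (![k₀, k₁, k₂] : Fin 3 → K) i * β j := by
  rcases hne with h | h | h
  · refine ⟨fun j => y 0 j / k₀, fun i j => ?_⟩
    have e0 := h0 j
    have e2 := h2 j
    fin_cases i
    · simp; field_simp
    · simp; field_simp; linear_combination e0
    · simp; field_simp; linear_combination -e2
  · refine ⟨fun j => y 1 j / k₁, fun i j => ?_⟩
    have e0 := h0 j
    have e1 := h1 j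
    fin_cases i
    · simp; field_simp; linear_combination -e0
    · simp; field_simp
    · simp; field_simp; linear_combination e1
  · refine ⟨fun j => y 2 j / k₂, fun i j => ?_⟩
    have e1 := h1 j
    have e2 := h2 j
    fin_cases i
    · simp; field_simp; linear_combination e2
    · simp; field_simp; linear_combination -e1
    · simp; field_simp

/-- the columns of `x` are multiples of a vector and its rows are not -/
lemma Dat.exists_col [FiniteDimensional K V] (hV : 11 ≤ Module.finrank K V) (D : Dat K V)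
    (c : Fin 2 → K) (hc : c ≠ 0) (ξ : V →ₗ[K] (Fin 3 → K))
    (hx : ∀ B, D.x B = vecMulVec c (ξ B)) (B₁ B₂ : V)
    (h : ∃ a b, ξ B₁ a * ξ B₂ b ≠ ξ B₁ b * ξ B₂ a) :
    ∃ η : Fin 3 → K, η ≠ 0 ∧ ∀ B, ∃ β : Fin 2 → K, D.y B = vecMulVec η β := by
  obtain ⟨i, hi⟩ := Function.ne_iff.1 hc
  rw [Pi.zero_apply] at hi
  have f1 : ∀ B, ξ B ᵥ* D.y B = 0 := by
    intro B
    ext j
    have := congrFun (congrFun (D.f1 B) i) j
    rw [hx, Matrix.mul_apply, Fin.sum_univ_three] at this
    simp only [vecMulVec_apply, Matrix.zero_apply] at this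
    have h5 : c i * (ξ B 0 * D.y B 0 j + ξ B 1 * D.y B 1 j + ξ B 2 * D.y B 2 j) = 0 := by
      linear_combination this
    simpa [Matrix.vecMul, dotProduct, Fin.sum_univ_three] using (mul_eq_zero.1 h5).resolve_left hi
  -- for all pairs with the first one nonzero
  have hall : ∀ B₁ B : V, ξ B₁ ᵥ* D.y B = 0 := by
    intro B₁ B
    by_cases hind : ∃ a b, ξ B₁ a * ξ B b ≠ ξ B₁ b * ξ B a
    · exact D.core hV c hc ξ hx B₁ B hind
    · push Not at hind
      by_cases h0 : ξ B₁ = 0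
      · rw [h0, Matrix.zero_vecMul]
      obtain ⟨a₀, ha₀⟩ := Function.ne_iff.1 h0
      rw [Pi.zero_apply] at ha₀
      by_cases h0' : ξ B = 0
      · have u1 := f1 (B₁ + B)
        rw [map_add, map_add, h0', add_zero, Matrix.vecMul_add, f1, zero_add] at u1
        exact u1
      · have h6 : ξ B a₀ ≠ 0 := by
          intro h7
          apply h0'
          ext b
          have h8 := hind a₀ b
          rw [h7, mul_zero] at h8
          exact (mul_eq_zero.1 h8).resolve_left ha₀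
        have h9 : ξ B₁ = (ξ B₁ a₀ / ξ B a₀) • ξ B := by
          ext b
          rw [Pi.smul_apply, smul_eq_mul]
          field_simp
          linear_combination -(hind a₀ b)
        rw [h9, Matrix.smul_vecMul, f1, smul_zero]
  obtain ⟨g, hg, hg0, hg1⟩ := exists_g2 _ _ h
  set u := ξ B₁ with hu
  set v := ξ B₂ with hv
  refine ⟨![u 1 * v 2 - u 2 * v 1, u 2 * v 0 - u 0 * v 2, u 0 * v 1 - u 1 * v 0], ?_, ?_⟩
  · intro h0
    obtain ⟨a, b, hab⟩ := h
    have h1 : u 1 * v 2 - u 2 * v 1 = 0 := by simpa using congrFun h0 0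
    have h2 : u 2 * v 0 - u 0 * v 2 = 0 := by simpa using congrFun h0 1
    have h3 : u 0 * v 1 - u 1 * v 0 = 0 := by simpa using congrFun h0 2
    apply hab
    fin_cases a <;> fin_cases b <;> simp <;>
      first | linear_combination h1 | linear_combination (-1 : K) * h1 | linear_combination h2 |
        linear_combination (-1 : K) * h2 | linear_combination h3 | linear_combination (-1 : K) * h3
  · intro B
    have w1 : ∀ j, u 0 * D.y B 0 j + u 1 * D.y B 1 j + u 2 * D.y B 2 j = 0 := by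
      intro j
      have := congrFun (hall B₁ B) j
      simpa [Matrix.vecMul, dotProduct, Fin.sum_univ_three] using this
    have w2 : ∀ j, v 0 * D.y B 0 j + v 1 * D.y B 1 j + v 2 * D.y B 2 j = 0 := by
      intro j
      have := congrFun (hall B₂ B) j
      simpa [Matrix.vecMul, dotProduct, Fin.sum_univ_three] using this
    have c2 : ∀ j, (u 1 * v 2 - u 2 * v 1) * D.y B 1 j - (u 2 * v 0 - u 0 * v 2) * D.y B 0 j = 0 := by
      intro j
      linear_combination v 2 * w1 j - u 2 * w2 j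
    have c0 : ∀ j, (u 2 * v 0 - u 0 * v 2) * D.y B 2 j - (u 0 * v 1 - u 1 * v 0) * D.y B 1 j = 0 := by
      intro j
      linear_combination v 0 * w1 j - u 0 * w2 j
    have c1 : ∀ j, (u 0 * v 1 - u 1 * v 0) * D.y B 0 j - (u 1 * v 2 - u 2 * v 1) * D.y B 2 j = 0 := by
      intro j
      linear_combination v 1 * w1 j - u 1 * w2 j
    obtain ⟨β, hβ⟩ := parallel_aux (u 1 * v 2 - u 2 * v 1) (u 2 * v 0 - u 0 * v 2)
      (u 0 * v 1 - u 1 * v 0) (D.y B) (by
        by_contra hcon
        push Not at hcon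
        obtain ⟨n0, n1, n2⟩ := hcon
        obtain ⟨a, b, hab⟩ := h
        apply hab
        fin_cases a <;> fin_cases b <;> simp <;>
          first | linear_combination n0 | linear_combination (-1 : K) * n0 |
            linear_combination n1 | linear_combination (-1 : K) * n1 |
            linear_combination n2 | linear_combination (-1 : K) * n2)
      (fun j => sub_eq_zero.1 (c2 j)) (fun j => sub_eq_zero.1 (c0 j))
      (fun j => sub_eq_zero.1 (c1 j))
    exact ⟨β, by ext i j; rw [vecMulVec_apply]; exact hβ i j⟩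

/-- the case where `x` has rank at most one -/
lemma Dat.res_M [FiniteDimensional K V] (hV : 11 ≤ Module.finrank K V) (D : Dat K V)
    (h : ∀ B a b, D.x B 0 a * D.x B 1 b = D.x B 0 b * D.x B 1 a) : D.Res := by
  let r₀ : V →ₗ[K] (Fin 3 → K) := LinearMap.pi fun j => ent D.x 0 j
  let r₁ : V →ₗ[K] (Fin 3 → K) := LinearMap.pi fun j => ent D.x 1 j
  have hr₀ : ∀ B j, r₀ B j = D.x B 0 j := fun B j => rfl
  have hr₁ : ∀ B j, r₁ B j = D.x B 1 j := fun B j => rfl
  rcases rank_one_rows r₀ r₁ h with ⟨c₀, c₁, ξ, hc, h0, h1⟩ | ⟨γ, z₀, z₁, hγ, h0, h1⟩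
  · have hc' : (![c₀, c₁] : Fin 2 → K) ≠ 0 := by
      intro h2
      rcases hc with hc | hc
      · exact hc (by simpa using congrFun h2 0)
      · exact hc (by simpa using congrFun h2 1)
    have hx : ∀ B, D.x B = vecMulVec ![c₀, c₁] (ξ B) := by
      intro B
      ext i a
      rw [vecMulVec_apply]
      fin_cases i
      · change r₀ B a = _
        rw [h0]; rfl
      · change r₁ B a = _
        rw [h1]; rfl
    by_cases hind : ∃ B₁ B₂ a b, ξ B₁ a * ξ B₂ b ≠ ξ B₁ b * ξ B₂ a
    · obtain ⟨B₁, B₂, hab⟩ := hind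
      obtain ⟨η, hη, hy⟩ := D.exists_col hV _ hc' ξ hx B₁ B₂ hab
      apply Dat.res_of_tr
      apply Dat.res_A hV D.tr η hη
      intro B
      obtain ⟨β, hβ⟩ := hy B
      exact ⟨β, by rw [Dat.tr_x, hβ, Matrix.transpose_vecMulVec]⟩
    · push Not at hind
      by_cases hξ : ∀ B, ξ B = 0
      · refine Or.inl fun B => ?_
        rw [hx, hξ]
        ext i a
        simp [vecMulVec_apply]
      · push Not at hξ
        obtain ⟨B₀, hB₀⟩ := hξ
        obtain ⟨a₀, ha₀⟩ := Function.ne_iff.1 hB₀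
        rw [Pi.zero_apply] at ha₀
        refine Dat.res_A hV D (ξ B₀) hB₀ fun B => ⟨(ξ B a₀ / ξ B₀ a₀) • ![c₀, c₁], ?_⟩
        rw [hx]
        ext i b
        rw [vecMulVec_apply, vecMulVec_apply, Pi.smul_apply, smul_eq_mul]
        have := hind B₀ B a₀ b
        field_simp
        linear_combination ((![c₀, c₁] : Fin 2 → K) i) * this
  · refine Dat.res_A hV D γ hγ fun B => ⟨![z₀ B, z₁ B], ?_⟩
    ext i a
    rw [vecMulVec_apply]
    fin_cases i
    · change r₀ B a = _
      rw [h0]; rfl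
    · change r₁ B a = _
      rw [h1]; rfl

/-- the classification -/
theorem Dat.classify [FiniteDimensional K V] (hV : 11 ≤ Module.finrank K V) (D : Dat K V) :
    D.Res := by
  -- the cross product of the rows of `x`
  let κ : Fin 3 → V → K := ![fun B => D.x B 0 1 * D.x B 1 2 - D.x B 0 2 * D.x B 1 1,
    fun B => D.x B 0 2 * D.x B 1 0 - D.x B 0 0 * D.x B 1 2,
    fun B => D.x B 0 0 * D.x B 1 1 - D.x B 0 1 * D.x B 1 0]
  have hκ : ∀ k, IsPoly (κ k) := by
    intro k
    fin_cases k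
    · exact ((isPoly_ent D.x 0 1).mul (isPoly_ent D.x 1 2)).sub
        ((isPoly_ent D.x 0 2).mul (isPoly_ent D.x 1 1))
    · exact ((isPoly_ent D.x 0 2).mul (isPoly_ent D.x 1 0)).sub
        ((isPoly_ent D.x 0 0).mul (isPoly_ent D.x 1 2))
    · exact ((isPoly_ent D.x 0 0).mul (isPoly_ent D.x 1 1)).sub
        ((isPoly_ent D.x 0 1).mul (isPoly_ent D.x 1 0))
  have w : ∀ B i j, D.x B i 0 * D.y B 0 j + D.x B i 1 * D.y B 1 j + D.x B i 2 * D.y B 2 j = 0 := by
    intro B i j
    have := congrFun (congrFun (D.f1 B) i) j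
    rw [Matrix.mul_apply, Fin.sum_univ_three] at this
    exact this
  have hpar : ∀ B k a j, κ k B * D.y B a j = κ a B * D.y B k j := by
    intro B k a j
    have w0 := w B 0 j
    have w1 := w B 1 j
    fin_cases k <;> fin_cases a <;> simp [κ] <;>
      first | linear_combination D.x B 1 2 * w0 - D.x B 0 2 * w1 |
        linear_combination (-1 : K) * (D.x B 1 2 * w0 - D.x B 0 2 * w1) |
        linear_combination D.x B 1 1 * w0 - D.x B 0 1 * w1 |
        linear_combination (-1 : K) * (D.x B 1 1 * w0 - D.x B 0 1 * w1) |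
        linear_combination D.x B 1 0 * w0 - D.x B 0 0 * w1 |
        linear_combination (-1 : K) * (D.x B 1 0 * w0 - D.x B 0 0 * w1)
  by_cases hall : ∀ k B, κ k B = 0
  · apply Dat.res_M hV
    intro B a b
    have h0 : D.x B 0 1 * D.x B 1 2 - D.x B 0 2 * D.x B 1 1 = 0 := hall 0 B
    have h1 : D.x B 0 2 * D.x B 1 0 - D.x B 0 0 * D.x B 1 2 = 0 := hall 1 B
    have h2 : D.x B 0 0 * D.x B 1 1 - D.x B 0 1 * D.x B 1 0 = 0 := hall 2 B
    fin_cases a <;> fin_cases b <;> simp <;>
      first | linear_combination h1 | linear_combination (-1 : K) * h1 | linear_combination h2 |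
        linear_combination (-1 : K) * h2 | linear_combination h0 | linear_combination (-1 : K) * h0
  · push Not at hall
    obtain ⟨k, B₀, hB₀⟩ := hall
    apply Dat.res_of_tr
    apply Dat.res_M hV
    intro B a b
    have h1 := IsPoly.eq_zero_or ((hκ k).mul (hκ k)) (((isPoly_ent D.y a 0).mul
      (isPoly_ent D.y b 1)).sub ((isPoly_ent D.y b 0).mul (isPoly_ent D.y a 1))) (fun B => by
        have u1 := hpar B k a 0
        have u2 := hpar B k b 1
        have u3 := hpar B k b 0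
        have u4 := hpar B k a 1
        linear_combination κ k B * D.y B b 1 * u1 + κ a B * D.y B k 0 * u2 -
          κ k B * D.y B a 1 * u3 - κ b B * D.y B k 0 * u4)
    have h2 := (h1.resolve_left (fun h => mul_ne_zero hB₀ hB₀ (h B₀))) B
    change D.y B a 0 * D.y B b 1 = D.y B b 0 * D.y B a 1
    linear_combination h2

end Pool.Agent.X320.D4
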