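import Mathlib
import Pool.Agent.X320.D4.Five

set_option autoImplicit false

/-!
Compression spaces of different kinds intersect in small dimension.
-/

namespace Pool.Agent.X320.D4

open Matrix Module

variable {K : Type*} [Field K]

lemma exists_adapted (n : ℕ) (S : Fin n → Submodule K (Fin 5 → K))
    (h : ∀ i, i.val < finrank K (S i)) :
    ∃ w : Fin n → (Fin 5 → K), LinearIndependent K w ∧ ∀ i, w i ∈ S i := by
  induction n with
  | zero => exact ⟨Fin.elim0, linearIndependent_empty_type, fun i => i.elim0⟩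
  | succ n ih =>
    obtain ⟨w, hw, hwS⟩ := ih (fun i => S i.castSucc) (fun i => h i.castSucc)
    have h1 : ∃ x ∈ S (Fin.last n), x ∉ Submodule.span K (Set.range w) := by
      by_contra hcon
      push Not at hcon
      have h2 : S (Fin.last n) ≤ Submodule.span K (Set.range w) := hcon
      have h3 := Submodule.finrank_mono h2
      rw [finrank_span_eq_card hw, Fintype.card_fin] at h3
      have h4 := h (Fin.last n)
      rw [Fin.val_last] at h4
      omega
    obtain ⟨x, hx, hxw⟩ := h1
    refine ⟨Fin.snoc w x, hw.finSnoc hxw, ?_⟩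
    intro i
    refine Fin.lastCases ?_ (fun i => ?_) i
    · rw [Fin.snoc_last]; exact hx
    · rw [Fin.snoc_castSucc]; exact hwS i

lemma exists_adapted5 (S₀ S₁ S₂ S₃ S₄ : Submodule K (Fin 5 → K))
    (h₀ : 1 ≤ finrank K S₀) (h₁ : 2 ≤ finrank K S₁) (h₂ : 3 ≤ finrank K S₂)
    (h₃ : 4 ≤ finrank K S₃) (h₄ : 5 ≤ finrank K S₄) :
    ∃ w : Fin 5 → (Fin 5 → K), LinearIndependent K w ∧ w 0 ∈ S₀ ∧ w 1 ∈ S₁ ∧ w 2 ∈ S₂ ∧
      w 3 ∈ S₃ ∧ w 4 ∈ S₄ := by
  obtain ⟨w, hw, hwS⟩ := exists_adapted 5 ![S₀, S₁, S₂, S₃, S₄] (by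
    intro i
    fin_cases i
    · exact h₀
    · exact h₁
    · exact h₂
    · exact h₃
    · exact h₄)
  exact ⟨w, hw, hwS 0, hwS 1, hwS 2, hwS 3, hwS 4⟩

/-- the annihilator of a subspace under the dot product -/
def ann (U : Submodule K (Fin 5 → K)) : Submodule K (Fin 5 → K) where
  carrier := {r | ∀ u ∈ U, r ⬝ᵥ u = 0}
  add_mem' := by
    intro a b ha hb u hu
    rw [add_dotProduct, ha u hu, hb u hu, add_zero]
  zero_mem' := by
    intro u hu
    exact zero_dotProduct u
  smul_mem' := by
    intro c a ha u hu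
    rw [smul_dotProduct, ha u hu, smul_zero]

lemma finrank_ann (U : Submodule K (Fin 5 → K)) : finrank K (ann U) + finrank K U ≤ 5 := by
  have := orth_le (fun _ : Fin 5 => (1 : K)) (fun _ => one_ne_zero) (ann U) U (by
    intro c hc b hb
    have := hc b hb
    simpa [dotProduct] using this)
  simpa using this

/-- dimension count in an adapted basis -/
lemma finrank_le_of_adapted (V : Submodule K (Matrix (Fin 5) (Fin 5) K))
    (w : Fin 5 → (Fin 5 → K)) (hw : LinearIndependent K w) (U : Fin 5 → Submodule K (Fin 5 → K))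
    (h : ∀ B ∈ V, ∀ i, ∀ u ∈ U i, w i ⬝ᵥ (B *ᵥ u) = 0) :
    finrank K V ≤ ∑ i, (5 - finrank K (U i)) := by
  let Φ : V →ₗ[K] (∀ i, ann (U i)) :=
    { toFun := fun B i => ⟨w i ᵥ* B.1, fun u hu => by
        rw [← Matrix.dotProduct_mulVec]
        exact h B.1 B.2 i u hu⟩
      map_add' := fun a b => by
        ext i
        simp [Matrix.vecMul_add]
      map_smul' := fun a b => by
        ext i
        simp [Matrix.vecMul_smul] }
  have hinj : Function.Injective Φ := by
    rw [injective_iff_map_eq_zero]
    intro B hB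
    have h1 : ∀ i, w i ᵥ* B.1 = 0 := fun i => congrArg Subtype.val (congrFun hB i)
    have h2 : Matrix.of w * B.1 = 0 := by
      ext i j
      have := congrFun (h1 i) j
      exact this
    have h3 : IsUnit (Matrix.of w : Matrix (Fin 5) (Fin 5) K) :=
      Matrix.linearIndependent_rows_iff_isUnit.1 hw
    have h4 : IsUnit (Matrix.of w : Matrix (Fin 5) (Fin 5) K).det :=
      (Matrix.isUnit_iff_isUnit_det _).1 h3
    apply Subtype.ext
    have h5 := congrArg (fun M => (Matrix.of w)⁻¹ * M) h2
    simpa [← Matrix.mul_assoc, Matrix.nonsing_inv_mul _ h4] using h5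
  have h1 := LinearMap.finrank_le_finrank_of_injective hinj
  rw [Module.finrank_pi_fintype] at h1
  refine h1.trans (Finset.sum_le_sum fun i _ => ?_)
  have := finrank_ann (U i)
  omega

/-- a space of dimension eleven is not compressed in two different ways -/
theorem comp_disjoint (V : Submodule K (Matrix (Fin 5) (Fin 5) K))
    (h1 : Comp 5 2 V ∨ Comp 4 3 V) (h2 : Comp 3 4 V ∨ Comp 2 5 V) : finrank K V ≤ 10 := by
  have hmax : ∀ U : Submodule K (Fin 5 → K), finrank K U ≤ 5 := by
    intro U
    have := Submodule.finrank_le U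
    simpa using this
  have htop : finrank K (⊤ : Submodule K (Fin 5 → K)) = 5 := by simp
  rcases h1 with ⟨U, W, hU, hW, h⟩ | ⟨U, W, hU, hW, h⟩ <;>
  rcases h2 with ⟨U', W', hU', hW', h'⟩ | ⟨U', W', hU', hW', h'⟩
  · obtain ⟨w, hw, w0, w1, w2, w3, w4⟩ := exists_adapted5 W W W' W' ⊤ (by omega) (by omega)
      (by omega) (by omega) (by omega)
    have := finrank_le_of_adapted V w hw ![U, U, U', U', ⊥] (by
      intro B hB i u hu
      fin_cases i
      · exact h B hB u hu _ w0
      · exact h B hB u hu _ w1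
      · exact h' B hB u hu _ w2
      · exact h' B hB u hu _ w3
      · have : u = 0 := hu
        rw [this, Matrix.mulVec_zero, dotProduct_zero])
    rw [Fin.sum_univ_five] at this
    have e0 : finrank K (![U, U, U', U', ⊥] 0 : Submodule K (Fin 5 → K)) = finrank K U := rfl
    have e1 : finrank K (![U, U, U', U', ⊥] 1 : Submodule K (Fin 5 → K)) = finrank K U := rfl
    have e2 : finrank K (![U, U, U', U', ⊥] 2 : Submodule K (Fin 5 → K)) = finrank K U' := rfl
    have e3 : finrank K (![U, U, U', U', ⊥] 3 : Submodule K (Fin 5 → K)) = finrank K U' := rfl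
    have e4 : finrank K (![U, U, U', U', ⊥] 4 : Submodule K (Fin 5 → K)) = finrank K (⊥ : Submodule K (Fin 5 → K)) := rfl
    rw [e0, e1, e2, e3, e4] at this
    omega
  · obtain ⟨w, hw, w0, w1, w2, w3, w4⟩ := exists_adapted5 W W W' W' W' (by omega) (by omega)
      (by omega) (by omega) (by omega)
    have := finrank_le_of_adapted V w hw ![U, U, U', U', U'] (by
      intro B hB i u hu
      fin_cases i
      · exact h B hB u hu _ w0
      · exact h B hB u hu _ w1
      · exact h' B hB u hu _ w2
      · exact h' B hB u hu _ w3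
      · exact h' B hB u hu _ w4)
    rw [Fin.sum_univ_five] at this
    have e0 : finrank K (![U, U, U', U', U'] 0 : Submodule K (Fin 5 → K)) = finrank K U := rfl
    have e1 : finrank K (![U, U, U', U', U'] 1 : Submodule K (Fin 5 → K)) = finrank K U := rfl
    have e2 : finrank K (![U, U, U', U', U'] 2 : Submodule K (Fin 5 → K)) = finrank K U' := rfl
    have e3 : finrank K (![U, U, U', U', U'] 3 : Submodule K (Fin 5 → K)) = finrank K U' := rfl
    have e4 : finrank K (![U, U, U', U', U'] 4 : Submodule K (Fin 5 → K)) = finrank K U' := rfl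
    rw [e0, e1, e2, e3, e4] at this
    omega
  · obtain ⟨w, hw, w0, w1, w2, w3, w4⟩ := exists_adapted5 W W W W' ⊤ (by omega) (by omega)
      (by omega) (by omega) (by omega)
    have := finrank_le_of_adapted V w hw ![U, U, U, U', ⊥] (by
      intro B hB i u hu
      fin_cases i
      · exact h B hB u hu _ w0
      · exact h B hB u hu _ w1
      · exact h B hB u hu _ w2
      · exact h' B hB u hu _ w3
      · have : u = 0 := hu
        rw [this, Matrix.mulVec_zero, dotProduct_zero])
    rw [Fin.sum_univ_five] at this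
    have e0 : finrank K (![U, U, U, U', ⊥] 0 : Submodule K (Fin 5 → K)) = finrank K U := rfl
    have e1 : finrank K (![U, U, U, U', ⊥] 1 : Submodule K (Fin 5 → K)) = finrank K U := rfl
    have e2 : finrank K (![U, U, U, U', ⊥] 2 : Submodule K (Fin 5 → K)) = finrank K U := rfl
    have e3 : finrank K (![U, U, U, U', ⊥] 3 : Submodule K (Fin 5 → K)) = finrank K U' := rfl
    have e4 : finrank K (![U, U, U, U', ⊥] 4 : Submodule K (Fin 5 → K)) = finrank K (⊥ : Submodule K (Fin 5 → K)) := rfl
    rw [e0, e1, e2, e3, e4] at this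
    omega
  · obtain ⟨w, hw, w0, w1, w2, w3, w4⟩ := exists_adapted5 W W W W' W' (by omega) (by omega)
      (by omega) (by omega) (by omega)
    have := finrank_le_of_adapted V w hw ![U, U, U, U', U'] (by
      intro B hB i u hu
      fin_cases i
      · exact h B hB u hu _ w0
      · exact h B hB u hu _ w1
      · exact h B hB u hu _ w2
      · exact h' B hB u hu _ w3
      · exact h' B hB u hu _ w4)
    rw [Fin.sum_univ_five] at this
    have e0 : finrank K (![U, U, U, U', U'] 0 : Submodule K (Fin 5 → K)) = finrank K U := rfl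
    have e1 : finrank K (![U, U, U, U', U'] 1 : Submodule K (Fin 5 → K)) = finrank K U := rfl
    have e2 : finrank K (![U, U, U, U', U'] 2 : Submodule K (Fin 5 → K)) = finrank K U := rfl
    have e3 : finrank K (![U, U, U, U', U'] 3 : Submodule K (Fin 5 → K)) = finrank K U' := rfl
    have e4 : finrank K (![U, U, U, U', U'] 4 : Submodule K (Fin 5 → K)) = finrank K U' := rfl
    rw [e0, e1, e2, e3, e4] at this
    omega

end Pool.Agent.X320.D4
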