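import Mathlib

set_option autoImplicit false

/-!
The main theorem of elimination theory in coordinates, and the description of the rank of a family
of vectors by minors.
-/

namespace Pool.Agent.X320.D4

open MvPolynomial Module

variable {K : Type*} [Field K]

lemma monomial_mem_pow {n : ℕ} (e : Fin n →₀ ℕ) :
    monomial e (1 : K) ∈
      (Ideal.span (Set.range (X : Fin n → MvPolynomial (Fin n) K))) ^ e.degree := by
  induction e using Finsupp.induction_linear with
  | zero => simp
  | add f g hf hg =>
    rw [map_add, pow_add, ← one_mul (1 : K), ← monomial_mul]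
    simpa using Ideal.mul_mem_mul hf hg
  | single i m =>
    rw [Finsupp.degree_single, ← X_pow_eq_monomial]
    exact Ideal.pow_mem_pow (Ideal.subset_span (Set.mem_range_self i)) m

/-- a spanning family contains a square nonsingular matrix -/
lemma exists_det_ne_zero_of_span {R : Type*} [Fintype R] [DecidableEq R] {C : Type*}
    (w : C → (R → K)) (h : Submodule.span K (Set.range w) = ⊤) :
    ∃ c : R → C, (Matrix.of fun e => w (c e)).det ≠ 0 := by
  obtain ⟨κ, a, ha, hsp, hli⟩ := exists_linearIndependent' K w
  rw [h] at hsp
  let b : Basis κ K (R → K) := Basis.mk hli hsp.ge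
  have : Finite κ := Module.Finite.finite_basis b
  have : Fintype κ := Fintype.ofFinite κ
  have hcard : Fintype.card R = Fintype.card κ := by
    rw [← Module.finrank_eq_card_basis b, Module.finrank_pi]
  let ε : R ≃ κ := Fintype.equivOfCardEq hcard
  refine ⟨fun e => a (ε e), ?_⟩
  have h1 : LinearIndependent K (Matrix.of fun e => w (a (ε e))).row := by
    exact hli.comp ε ε.injective
  rw [Matrix.linearIndependent_rows_iff_isUnit, Matrix.isUnit_iff_isUnit_det] at h1
  exact h1.ne_zero

/-- rank is detected by minors -/
lemma exists_minor {I : Type*} {m r : ℕ} (g : I → (Fin m → K))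
    (h : r ≤ finrank K (Submodule.span K (Set.range g))) :
    ∃ (a : Fin r → I) (c : Fin r → Fin m), (Matrix.of fun i j => g (a i) (c j)).det ≠ 0 := by
  obtain ⟨κ, b, hb, hsp, hli⟩ := exists_linearIndependent' K g
  have : Finite κ := hli.finite
  have : Fintype κ := Fintype.ofFinite κ
  have hcard : r ≤ Fintype.card κ := by
    rw [← finrank_span_eq_card hli, hsp]
    exact h
  let ε : Fin r ↪ κ := (Fin.castLEEmb hcard).trans (Fintype.equivFin κ).symm.toEmbedding
  let a : Fin r → I := fun i => b (ε i)
  have hrow : LinearIndependent K (fun i => g (a i)) := hli.comp ε ε.injective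
  let A : Matrix (Fin r) (Fin m) K := Matrix.of fun i => g (a i)
  have hrk : A.rank = r := by
    have : LinearIndependent K A.row := hrow
    rw [this.rank_matrix, Fintype.card_fin]
  have hsp2 : Submodule.span K (Set.range A.transpose) = ⊤ := by
    apply Submodule.eq_top_of_finrank_eq
    rw [Module.finrank_fintype_fun_eq_card, Fintype.card_fin]
    rw [Matrix.rank_eq_finrank_span_cols] at hrk
    exact hrk
  obtain ⟨c, hc⟩ := exists_det_ne_zero_of_span A.transpose hsp2
  refine ⟨a, c, ?_⟩
  rw [← Matrix.det_transpose]
  exact hc

lemma finrank_span_le_iff {I : Type*} {m r : ℕ} (g : I → (Fin m → K)) :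
    finrank K (Submodule.span K (Set.range g)) ≤ r ↔
      ∀ (a : Fin (r + 1) → I) (c : Fin (r + 1) → Fin m),
        (Matrix.of fun i j => g (a i) (c j)).det = 0 := by
  constructor
  · intro h a c
    by_contra hne
    have h1 : LinearIndependent K (Matrix.of fun i j => g (a i) (c j)).row := by
      rw [Matrix.linearIndependent_rows_iff_isUnit, Matrix.isUnit_iff_isUnit_det]
      exact isUnit_iff_ne_zero.2 hne
    have h2 : LinearIndependent K (fun i => g (a i)) := by
      have h3 : (Matrix.of fun i j => g (a i) (c j)).row =
          (LinearMap.funLeft K K c) ∘ (fun i => g (a i)) := rfl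
      rw [h3] at h1
      exact h1.of_comp _
    have h4 : finrank K (Submodule.span K (Set.range fun i => g (a i))) ≤ r := by
      refine le_trans (Submodule.finrank_mono (Submodule.span_mono ?_)) h
      rintro _ ⟨i, rfl⟩
      exact ⟨a i, rfl⟩
    rw [finrank_span_eq_card h2, Fintype.card_fin] at h4
    omega
  · intro h
    by_contra hlt
    push Not at hlt
    obtain ⟨a, c, hac⟩ := exists_minor g (Nat.succ_le_of_lt hlt)
    exact hac (h a c)

/-- The main theorem of elimination theory: the projection to the parameter space of a family of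
projective varieties cut out by homogeneous equations of the same degree is closed. -/
theorem elimination [IsAlgClosed K] {σ I : Type*} {n : ℕ} (d : ℕ)
    (G : I → MvPolynomial (Fin n) (MvPolynomial σ K)) (hG : ∀ α, (G α).IsHomogeneous d) :
    ∃ S : Set (MvPolynomial σ K), ∀ v : σ → K,
      (∃ l : Fin n → K, l ≠ 0 ∧ ∀ α, eval l (map (eval v) (G α)) = 0) ↔
        ∀ p ∈ S, eval v p = 0 := by
  classical
  -- rows of degree `D + d`
  let R : ℕ → Type := fun D => {e : Fin n →₀ ℕ // e.degree = D + d}
  let C : ℕ → Type _ := fun D => I × {f : Fin n →₀ ℕ // f.degree = D}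
  have : ∀ D, Finite (R D) := fun D => Finsupp.finite_of_degree_eq (D + d)
  let _ : ∀ D, Fintype (R D) := fun D => Fintype.ofFinite _
  let M : ∀ D, (R D → C D) → Matrix (R D) (R D) (MvPolynomial σ K) := fun D c =>
    Matrix.of fun e e' => coeff e'.1 (monomial (c e).2.1 1 * G (c e).1)
  refine ⟨{p | ∃ (D : ℕ) (c : R D → C D), p = (M D c).det}, ?_⟩
  intro v
  have hdet : ∀ D (c : R D → C D), eval v (M D c).det =
      (Matrix.of fun (e e' : R D) =>
        coeff e'.1 (monomial (c e).2.1 (1 : K) * map (eval v) (G (c e).1))).det := by
    intro D c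
    rw [RingHom.map_det]
    congr 1
    ext e e'
    simp only [RingHom.mapMatrix_apply, Matrix.map_apply, Matrix.of_apply, M]
    rw [← coeff_map, map_mul, map_monomial, map_one]
  have hhom : ∀ α, (map (eval v) (G α)).IsHomogeneous d := fun α => (hG α).map _
  constructor
  · rintro ⟨l, hl, hall⟩ p ⟨D, c, rfl⟩
    rw [hdet]
    rw [← Matrix.exists_mulVec_eq_zero_iff]
    refine ⟨fun e => ∏ i, l i ^ e.1 i, ?_, ?_⟩
    · obtain ⟨i, hi⟩ := Function.ne_iff.1 hl
      intro h0
      have h1 := congrFun h0 ⟨Finsupp.single i (D + d), Finsupp.degree_single _ _⟩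
      simp only [Pi.zero_apply] at h1
      rw [Finset.prod_eq_single i] at h1
      · rw [Finsupp.single_eq_same] at h1
        exact pow_ne_zero _ hi h1
      · intro j _ hj
        rw [Finsupp.single_eq_of_ne hj, pow_zero]
      · intro h; exact absurd (Finset.mem_univ i) h
    · ext e
      simp only [Matrix.mulVec, dotProduct, Matrix.of_apply, Pi.zero_apply]
      set P := monomial (c e).2.1 (1 : K) * map (eval v) (G (c e).1) with hP
      have h1 : eval l P = 0 := by rw [hP, map_mul, hall, mul_zero]
      have h2 : P.IsHomogeneous (D + d) := by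
        rw [hP]
        exact (isHomogeneous_monomial _ (c e).2.2).mul (hhom _)
      rw [← h1, eval_eq']
      have h3 : ∀ x ∈ P.support, x.degree = D + d := by
        intro x hx
        rw [← h2 (mem_support_iff.1 hx), Finsupp.degree_eq_weight_one]
        rfl
      let emb : R D ↪ (Fin n →₀ ℕ) := ⟨Subtype.val, Subtype.val_injective⟩
      have h4 : P.support ⊆ (Finset.univ : Finset (R D)).map emb := by
        intro x hx
        rw [Finset.mem_map]
        exact ⟨⟨x, h3 x hx⟩, Finset.mem_univ _, rfl⟩
      rw [Finset.sum_subset h4, Finset.sum_map]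
      · rfl
      · intro x _ hx
        rw [notMem_support_iff.1 hx, zero_mul]
  · intro hall
    by_contra hcon
    push Not at hcon
    -- the ideal
    set J : Ideal (MvPolynomial (Fin n) K) :=
      Ideal.span (Set.range fun α => map (eval v) (G α)) with hJ
    have hz : ∀ x ∈ zeroLocus K J, x = 0 := by
      intro x hx
      by_contra hx0
      obtain ⟨α, hα⟩ := hcon x hx0
      apply hα
      have := hx _ (Ideal.subset_span ⟨α, rfl⟩)
      rwa [← coe_aeval_eq_eval]
    have hX : Ideal.span (Set.range (X : Fin n → MvPolynomial (Fin n) K)) ≤ J.radical := by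
      rw [Ideal.span_le]
      rintro _ ⟨i, rfl⟩
      rw [SetLike.mem_coe, ← vanishingIdeal_zeroLocus_eq_radical (K := K) J,
        mem_vanishingIdeal_iff]
      intro x hx
      rw [hz x hx, aeval_X]
      rfl
    obtain ⟨k, hk⟩ := J.exists_radical_pow_le_of_fg (J.radical.fg_of_isNoetherianRing)
    have hmon : ∀ e : Fin n →₀ ℕ, k ≤ e.degree → monomial e (1 : K) ∈ J := by
      intro e he
      exact hk (Ideal.pow_right_mono hX k (Ideal.pow_le_pow_right he (monomial_mem_pow e)))
    -- truncation
    let T : MvPolynomial (Fin n) K →ₗ[K] (R k → K) := LinearMap.pi fun e => lcoeff K e.1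
    let w : C k → (R k → K) := fun c => T (monomial c.2.1 (1 : K) * map (eval v) (G c.1))
    have hT : ∀ (f : Fin n →₀ ℕ) (α : I),
        T (monomial f (1 : K) * map (eval v) (G α)) ∈ Submodule.span K (Set.range w) := by
      intro f α
      by_cases hf : f.degree = k
      · exact Submodule.subset_span ⟨(α, ⟨f, hf⟩), rfl⟩
      · have : T (monomial f (1 : K) * map (eval v) (G α)) = 0 := by
          ext e
          change coeff e.1 _ = 0
          refine ((isHomogeneous_monomial (1 : K) (rfl : f.degree = f.degree)).mul
            (hhom α)).coeff_eq_zero ?_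
          rw [e.2]
          omega
        rw [this]
        exact Submodule.zero_mem _
    have hT2 : ∀ (h : MvPolynomial (Fin n) K) (α : I),
        T (h * map (eval v) (G α)) ∈ Submodule.span K (Set.range w) := by
      intro h α
      induction h using MvPolynomial.induction_on' with
      | monomial u a =>
        have : monomial u a * map (eval v) (G α) =
            a • (monomial u (1 : K) * map (eval v) (G α)) := by
          rw [← smul_mul_assoc, smul_monomial, smul_eq_mul, mul_one]
        rw [this, map_smul]
        exact Submodule.smul_mem _ _ (hT u α)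
      | add p q hp hq =>
        rw [add_mul, map_add]
        exact Submodule.add_mem _ hp hq
    have hT3 : ∀ p ∈ J, T p ∈ Submodule.span K (Set.range w) := by
      intro p hp
      obtain ⟨h, hh⟩ := (Finsupp.mem_ideal_span_range_iff_exists_finsupp).1 hp
      rw [← hh, Finsupp.sum, map_sum]
      exact Submodule.sum_mem _ fun α _ => hT2 _ α
    have htop : Submodule.span K (Set.range w) = ⊤ := by
      rw [eq_top_iff]
      intro y _
      have hy : y = ∑ e : R k, y e • T (monomial e.1 (1 : K)) := by
        ext e'
        rw [Finset.sum_apply, Finset.sum_eq_single e']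
        · change _ = y e' • coeff e'.1 (monomial e'.1 (1 : K))
          rw [coeff_monomial, if_pos rfl, smul_eq_mul, mul_one]
        · intro e _ he
          change y e • coeff e'.1 (monomial e.1 (1 : K)) = 0
          rw [coeff_monomial, if_neg (fun h => he (Subtype.ext h)), smul_zero]
        · intro h; exact absurd (Finset.mem_univ e') h
      rw [hy]
      refine Submodule.sum_mem _ fun e _ => Submodule.smul_mem _ _ (hT3 _ (hmon _ ?_))
      rw [e.2]
      omega
    obtain ⟨c, hc⟩ := exists_det_ne_zero_of_span w htop
    apply hc
    have := hall _ ⟨k, c, rfl⟩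
    rw [hdet] at this
    exact this

end Pool.Agent.X320.D4
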