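import Mathlib
import Pool.Agent.X320.D4.Disj
import Pool.Agent.X320.D4.Elim
import Pool.Agent.X320.D4.Defs

set_option autoImplicit false

/-!
The compression conditions are closed conditions on frames.
-/

namespace Pool.Agent.X320.D4

open Matrix Module

variable {K : Type*} [Field K]

lemma le_finrank_ann (U : Submodule K (Fin 5 → K)) : 5 ≤ finrank K (ann U) + finrank K U := by
  let Φ : (Fin 5 → K) →ₗ[K] (U →ₗ[K] K) :=
    { toFun := fun r =>
        { toFun := fun u => r ⬝ᵥ u.1
          map_add' := fun a b => by simp [dotProduct_add]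
          map_smul' := fun a b => by simp [dotProduct_smul] }
      map_add' := fun a b => by
        ext u
        simp [add_dotProduct]
      map_smul' := fun a b => by
        ext u
        simp [smul_dotProduct] }
  have hker : LinearMap.ker Φ = ann U := by
    ext r
    rw [LinearMap.mem_ker]
    constructor
    · intro h u hu
      exact LinearMap.congr_fun h ⟨u, hu⟩
    · intro h
      ext u
      exact h u.1 u.2
  have h1 := LinearMap.finrank_range_add_finrank_ker Φ
  have h2 : finrank K (LinearMap.range Φ) ≤ finrank K (U →ₗ[K] K) := Submodule.finrank_le _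
  have h3 : finrank K (U →ₗ[K] K) = finrank K U := Subspace.dual_finrank_eq
  have h4 : finrank K (Fin 5 → K) = 5 := by simp
  rw [hker] at h1
  omega

/-- the span of a frame -/
def spn (v : Idx → K) : Submodule K (Matrix (Fin 5) (Fin 5) K) :=
  Submodule.span K (Set.range (mats v))

lemma spn_induction {v : Idx → K} {P : Matrix (Fin 5) (Fin 5) K → Prop}
    (h0 : P 0) (hadd : ∀ A B, P A → P B → P (A + B)) (hsmul : ∀ (c : K) A, P A → P (c • A))
    (h : ∀ k, P (mats v k)) : ∀ A ∈ spn v, P A := by
  intro A hA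
  induction hA using Submodule.span_induction with
  | mem x hx =>
    obtain ⟨k, rfl⟩ := hx
    exact h k
  | zero => exact h0
  | add x y _ _ hx hy => exact hadd x y hx hy
  | smul c x _ hx => exact hsmul c x hx

/-- closed conditions on frames -/
def ClosedPred (P : Submodule K (Matrix (Fin 5) (Fin 5) K) → Prop) : Prop :=
  ∃ S : Set (MvPolynomial Idx K), ∀ v : Idx → K,
    P (spn v) ↔ ∀ p ∈ S, MvPolynomial.eval v p = 0

lemma comp52_iff (v : Idx → K) :
    Comp 5 2 (spn v) ↔
      finrank K (Submodule.span K (Set.range fun a : Fin 11 × Fin 5 =>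
        (fun i => v (a.1, i, a.2) : Fin 5 → K))) ≤ 3 := by
  have hcol : ∀ (k : Fin 11) (u : Fin 5 → K),
      mats v k *ᵥ u = ∑ j, u j • (fun i => v (k, i, j) : Fin 5 → K) := by
    intro k u
    ext i
    simp only [Matrix.mulVec, dotProduct, mats, Matrix.of_apply, Finset.sum_apply, Pi.smul_apply,
      smul_eq_mul]
    exact Finset.sum_congr rfl fun j _ => mul_comm _ _
  constructor
  · rintro ⟨U, W, hU, hW, hall⟩
    have hU' : U = ⊤ := by
      apply Submodule.eq_top_of_finrank_eq
      have h1 := Submodule.finrank_le U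
      have h4 : finrank K (Fin 5 → K) = 5 := by simp
      omega
    have hle : Submodule.span K (Set.range fun a : Fin 11 × Fin 5 =>
        (fun i => v (a.1, i, a.2) : Fin 5 → K)) ≤ ann W := by
      rw [Submodule.span_le]
      rintro _ ⟨a, rfl⟩ w hw
      rw [dotProduct_comm]
      have := hall (mats v a.1) (Submodule.subset_span ⟨a.1, rfl⟩) (Pi.single a.2 1)
        (by rw [hU']; exact Submodule.mem_top) w hw
      rw [Matrix.mulVec_single_one] at this
      exact this
    have h1 := Submodule.finrank_mono hle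
    have h2 := finrank_ann W
    omega
  · intro h
    set X := Submodule.span K (Set.range fun a : Fin 11 × Fin 5 =>
        (fun i => v (a.1, i, a.2) : Fin 5 → K)) with hX
    refine ⟨⊤, ann X, by simp, ?_, ?_⟩
    · have := le_finrank_ann X
      omega
    · intro B hB u _ w hw
      apply hw
      revert B
      refine spn_induction (P := fun B => B *ᵥ u ∈ X) ?_ ?_ ?_ ?_
      · rw [Matrix.zero_mulVec]; exact X.zero_mem
      · intro A B hA hB
        rw [Matrix.add_mulVec]
        exact X.add_mem hA hB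
      · intro c A hA
        rw [Matrix.smul_mulVec]
        exact X.smul_mem c hA
      · intro k
        rw [hcol]
        exact X.sum_mem fun j _ => X.smul_mem _ (Submodule.subset_span ⟨(k, j), rfl⟩)

lemma closed_comp52 : ClosedPred (K := K) (Comp 5 2) := by
  refine ⟨{p | ∃ (a : Fin 4 → Fin 11 × Fin 5) (c : Fin 4 → Fin 5),
    p = (Matrix.of fun i j => (MvPolynomial.X ((a i).1, c j, (a i).2) :
      MvPolynomial Idx K)).det}, ?_⟩
  intro v
  rw [comp52_iff, finrank_span_le_iff]
  constructor
  · rintro h p ⟨a, c, rfl⟩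
    rw [RingHom.map_det, ← h a c]
    congr 1
    ext i j
    simp
  · intro h a c
    rw [← h _ ⟨a, c, rfl⟩, RingHom.map_det]
    congr 1
    ext i j
    simp

/-- the vector `l i * e_j - l j * e_i` -/
def kv (l : Fin 5 → K) (i j : Fin 5) : Fin 5 → K := l i • Pi.single j 1 - l j • Pi.single i 1

lemma kv_dot (l : Fin 5 → K) (i j : Fin 5) : l ⬝ᵥ kv l i j = 0 := by
  rw [kv, dotProduct_sub, dotProduct_smul, dotProduct_smul, dotProduct_single, dotProduct_single,
    mul_one, mul_one, smul_eq_mul, smul_eq_mul, mul_comm, sub_self]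

lemma smul_eq_sum_kv {l u : Fin 5 → K} (h : l ⬝ᵥ u = 0) (i : Fin 5) :
    l i • u = ∑ j, u j • kv l i j := by
  have h1 : ∑ j, u j • kv l i j =
      l i • (∑ j, u j • Pi.single j (1 : K)) - (∑ j, l j * u j) • Pi.single i (1 : K) := by
    simp only [kv, smul_sub, Finset.sum_sub_distrib, Finset.smul_sum, Finset.sum_smul]
    congr 1
    · refine Finset.sum_congr rfl fun j _ => ?_
      rw [smul_comm]
    · refine Finset.sum_congr rfl fun j _ => ?_
      rw [smul_smul, mul_comm]
  rw [h1]
  have h2 : ∑ j, l j * u j = 0 := h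
  have h3 : ∑ j, u j • Pi.single j (1 : K) = u := by
    ext t
    simp [Finset.sum_apply, Pi.single_apply]
  rw [h2, h3, zero_smul, sub_zero]

/-- the family whose rank detects the condition `Comp 4 3` -/
def fam (v : Idx → K) (l : Fin 5 → K) (a : Fin 11 × Fin 5 × Fin 5) : Fin 5 → K :=
  fun c => l a.2.1 * v (a.1, c, a.2.2) - l a.2.2 * v (a.1, c, a.2.1)

lemma fam_eq (v : Idx → K) (l : Fin 5 → K) (a : Fin 11 × Fin 5 × Fin 5) :
    fam v l a = mats v a.1 *ᵥ kv l a.2.1 a.2.2 := by
  rw [kv, Matrix.mulVec_sub, Matrix.mulVec_smul, Matrix.mulVec_smul, Matrix.mulVec_single_one,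
    Matrix.mulVec_single_one]
  rfl

lemma exists_ann_le (U : Submodule K (Fin 5 → K)) (hU : 4 ≤ finrank K U) :
    ∃ l : Fin 5 → K, l ≠ 0 ∧ ann (Submodule.span K {l}) ≤ U := by
  have h5 : finrank K (Fin 5 → K) = 5 := by simp
  have hUle := Submodule.finrank_le U
  rcases Nat.lt_or_ge (finrank K U) 5 with h | h
  · have h1 := le_finrank_ann U
    have h2 : 0 < finrank K (ann U) := by omega
    obtain ⟨l, hl⟩ := (Module.finrank_pos_iff_exists_ne_zero).1 h2
    refine ⟨l.1, fun h0 => hl (Subtype.ext h0), ?_⟩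
    have hne : l.1 ≠ 0 := fun h0 => hl (Subtype.ext h0)
    have hle : U ≤ ann (Submodule.span K {l.1}) := by
      intro u hu x hx
      obtain ⟨c, rfl⟩ := Submodule.mem_span_singleton.1 hx
      rw [dotProduct_smul, dotProduct_comm, l.2 u hu, smul_zero]
    have h3 := finrank_ann (Submodule.span K {l.1})
    rw [finrank_span_singleton hne] at h3
    have h4 := Submodule.finrank_mono hle
    exact (Submodule.eq_of_le_of_finrank_eq hle (by omega)).ge
  · have hU' : U = ⊤ := Submodule.eq_top_of_finrank_eq (by omega)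
    refine ⟨Pi.single 0 1, by simp, ?_⟩
    rw [hU']
    exact le_top

lemma comp43_iff (v : Idx → K) :
    Comp 4 3 (spn v) ↔ ∃ l : Fin 5 → K, l ≠ 0 ∧
      finrank K (Submodule.span K (Set.range (fam v l))) ≤ 2 := by
  constructor
  · rintro ⟨U, W, hU, hW, hall⟩
    obtain ⟨l, hl, hlU⟩ := exists_ann_le U hU
    refine ⟨l, hl, ?_⟩
    have hle : Submodule.span K (Set.range (fam v l)) ≤ ann W := by
      rw [Submodule.span_le]
      rintro _ ⟨a, rfl⟩ w hw
      rw [dotProduct_comm, fam_eq]
      refine hall (mats v a.1) (Submodule.subset_span ⟨a.1, rfl⟩) _ (hlU ?_) w hw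
      intro x hx
      obtain ⟨c, rfl⟩ := Submodule.mem_span_singleton.1 hx
      rw [dotProduct_smul, dotProduct_comm, kv_dot, smul_zero]
    have h1 := Submodule.finrank_mono hle
    have h2 := finrank_ann W
    omega
  · rintro ⟨l, hl, h⟩
    set X := Submodule.span K (Set.range (fam v l)) with hX
    obtain ⟨i, hi⟩ := Function.ne_iff.1 hl
    refine ⟨ann (Submodule.span K {l}), ann X, ?_, ?_, ?_⟩
    · have h1 := le_finrank_ann (Submodule.span K {l})
      rw [finrank_span_singleton hl] at h1
      omega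
    · have := le_finrank_ann X
      omega
    · intro B hB u hu w hw
      apply hw
      have hlu : l ⬝ᵥ u = 0 := by
        rw [dotProduct_comm]
        exact hu l (Submodule.mem_span_singleton_self l)
      revert B
      refine spn_induction (P := fun B => B *ᵥ u ∈ X) ?_ ?_ ?_ ?_
      · rw [Matrix.zero_mulVec]; exact X.zero_mem
      · intro A B hA hB
        rw [Matrix.add_mulVec]
        exact X.add_mem hA hB
      · intro c A hA
        rw [Matrix.smul_mulVec]
        exact X.smul_mem c hA
      · intro k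
        have h1 : mats v k *ᵥ u = (l i)⁻¹ • ∑ j, u j • fam v l (k, i, j) := by
          have h2 : ∑ j, u j • fam v l (k, i, j) = l i • (mats v k *ᵥ u) := by
            rw [← Matrix.mulVec_smul, smul_eq_sum_kv hlu i, Matrix.mulVec_sum]
            refine Finset.sum_congr rfl fun j _ => ?_
            rw [Matrix.mulVec_smul, fam_eq]
          rw [h2, smul_smul, inv_mul_cancel₀ hi, one_smul]
        rw [h1]
        exact X.smul_mem _ (X.sum_mem fun j _ => X.smul_mem _ (Submodule.subset_span ⟨_, rfl⟩))

lemma isHomogeneous_det {R ι : Type*} [CommRing R] {m : ℕ}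
    (A : Matrix (Fin m) (Fin m) (MvPolynomial ι R)) (h : ∀ i j, (A i j).IsHomogeneous 1) :
    A.det.IsHomogeneous m := by
  rw [Matrix.det_apply]
  refine MvPolynomial.IsHomogeneous.sum _ _ _ fun σ _ => ?_
  have h1 : (∏ i, A (σ i) i).IsHomogeneous (∑ i : Fin m, 1) :=
    MvPolynomial.IsHomogeneous.prod _ _ _ fun i _ => h (σ i) i
  simp only [Finset.sum_const, Finset.card_univ, Fintype.card_fin, smul_eq_mul, mul_one] at h1
  rcases Int.units_eq_one_or (Equiv.Perm.sign σ) with hs | hs
  · rw [hs, one_smul]; exact h1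
  · rw [hs, Units.neg_smul, one_smul]; exact h1.neg

/-- the generic `3 × 3` minor -/
noncomputable def gen43 (a : Fin 3 → Fin 11 × Fin 5 × Fin 5) (c : Fin 3 → Fin 5) :
    MvPolynomial (Fin 5) (MvPolynomial Idx K) :=
  (Matrix.of fun i j =>
    MvPolynomial.X (a i).2.1 * MvPolynomial.C (MvPolynomial.X ((a i).1, c j, (a i).2.2)) -
      MvPolynomial.X (a i).2.2 * MvPolynomial.C (MvPolynomial.X ((a i).1, c j, (a i).2.1))).det

lemma eval_gen43 (a : Fin 3 → Fin 11 × Fin 5 × Fin 5) (c : Fin 3 → Fin 5) (v : Idx → K)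
    (l : Fin 5 → K) :
    MvPolynomial.eval l (MvPolynomial.map (MvPolynomial.eval v) (gen43 (K := K) a c)) =
      (Matrix.of fun i j => fam v l (a i) (c j)).det := by
  rw [gen43, RingHom.map_det, RingHom.map_det]
  congr 1
  ext i j
  simp [fam]

lemma closed_comp43 [IsAlgClosed K] : ClosedPred (K := K) (Comp 4 3) := by
  obtain ⟨S, hS⟩ := elimination (K := K) 3
    (fun b : (Fin 3 → Fin 11 × Fin 5 × Fin 5) × (Fin 3 → Fin 5) => gen43 b.1 b.2) (by
      intro b
      refine isHomogeneous_det _ fun i j => ?_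
      simp only [Matrix.of_apply]
      refine MvPolynomial.IsHomogeneous.sub ?_ ?_
      · exact (MvPolynomial.isHomogeneous_X _ _).mul (MvPolynomial.isHomogeneous_C _ _)
      · exact (MvPolynomial.isHomogeneous_X _ _).mul (MvPolynomial.isHomogeneous_C _ _))
  refine ⟨S, fun v => ?_⟩
  rw [← hS v, comp43_iff]
  refine exists_congr fun l => and_congr_right fun _ => ?_
  rw [finrank_span_le_iff]
  constructor
  · intro h b
    rw [eval_gen43]
    exact h b.1 b.2
  · intro h a c
    have := h (a, c)
    rw [eval_gen43] at this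
    exact this

/-- transposition -/
def trp : Matrix (Fin 5) (Fin 5) K →ₗ[K] Matrix (Fin 5) (Fin 5) K :=
  (Matrix.transposeLinearEquiv (Fin 5) (Fin 5) K K).toLinearMap

/-- transposition of indices -/
def sw (i : Idx) : Idx := (i.1, i.2.2, i.2.1)

lemma map_spn (v : Idx → K) : (spn v).map trp = spn (v ∘ sw) := by
  rw [spn, spn, Submodule.map_span, ← Set.range_comp]
  rfl

lemma ClosedPred.transpose {P : Submodule K (Matrix (Fin 5) (Fin 5) K) → Prop}
    (h : ClosedPred P) : ClosedPred (fun V => P (V.map trp)) := by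
  obtain ⟨S, hS⟩ := h
  refine ⟨MvPolynomial.rename sw '' S, fun v => ?_⟩
  change P ((spn v).map trp) ↔ _
  rw [map_spn, hS]
  constructor
  · rintro h _ ⟨p, hp, rfl⟩
    rw [MvPolynomial.eval_rename]
    exact h p hp
  · intro h p hp
    rw [← MvPolynomial.eval_rename]
    exact h _ ⟨p, hp, rfl⟩

lemma comp_transpose {p q : ℕ} {V : Submodule K (Matrix (Fin 5) (Fin 5) K)} :
    Comp p q (V.map trp) ↔ Comp q p V := by
  constructor
  · rintro ⟨U, W, hU, hW, h⟩
    refine ⟨W, U, hW, hU, fun B hB u hu w hw => ?_⟩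
    have := h (Bᵀ) ⟨B, hB, rfl⟩ w hw u hu
    rwa [dotProduct_comm, ← Matrix.vecMul_transpose, Matrix.transpose_transpose,
      ← Matrix.dotProduct_mulVec] at this
  · rintro ⟨U, W, hU, hW, h⟩
    refine ⟨W, U, hW, hU, ?_⟩
    rintro _ ⟨B, hB, rfl⟩ u hu w hw
    have := h B hB w hw u hu
    change w ⬝ᵥ (Bᵀ *ᵥ u) = 0
    rw [dotProduct_comm, ← Matrix.vecMul_transpose, Matrix.transpose_transpose,
      ← Matrix.dotProduct_mulVec]
    exact this

lemma closed_comp34 [IsAlgClosed K] : ClosedPred (K := K) (Comp 3 4) := by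
  obtain ⟨S, hS⟩ := (closed_comp43 (K := K)).transpose
  exact ⟨S, fun v => by rw [← hS v]; exact comp_transpose.symm⟩

lemma closed_comp25 : ClosedPred (K := K) (Comp 2 5) := by
  obtain ⟨S, hS⟩ := (closed_comp52 (K := K)).transpose
  exact ⟨S, fun v => by rw [← hS v]; exact comp_transpose.symm⟩

/-- the condition that all `4 × 4` minors vanish -/
def Minors (V : Submodule K (Matrix (Fin 5) (Fin 5) K)) : Prop :=
  ∀ A ∈ V, ∀ r c : Fin 4 → Fin 5, (A.submatrix r c).det = 0

lemma rank_le_iff_minors (A : Matrix (Fin 5) (Fin 5) K) :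
    A.rank ≤ 3 ↔ ∀ r c : Fin 4 → Fin 5, (A.submatrix r c).det = 0 := by
  rw [Matrix.rank_eq_finrank_span_row]
  exact finrank_span_le_iff A.row

lemma closed_minors : ClosedPred (K := K) Minors := by
  refine ⟨{p | ∃ (s : Fin 11 → K) (r c : Fin 4 → Fin 5),
    p = (Matrix.of fun i j => ∑ k, MvPolynomial.C (s k) * (MvPolynomial.X (k, r i, c j) :
      MvPolynomial Idx K)).det}, ?_⟩
  intro v
  have hev : ∀ (s : Fin 11 → K) (r c : Fin 4 → Fin 5),
      MvPolynomial.eval v (Matrix.of fun i j => ∑ k, MvPolynomial.C (s k) *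
        (MvPolynomial.X (k, r i, c j) : MvPolynomial Idx K)).det =
      ((∑ k, s k • mats v k).submatrix r c).det := by
    intro s r c
    rw [RingHom.map_det]
    congr 1
    ext i j
    simp [mats, Matrix.sum_apply]
  constructor
  · rintro h p ⟨s, r, c, rfl⟩
    rw [hev]
    exact h _ (Submodule.sum_mem _ fun k _ => Submodule.smul_mem _ _
      (Submodule.subset_span ⟨k, rfl⟩)) r c
  · intro h A hA r c
    obtain ⟨s, rfl⟩ := (Submodule.mem_span_range_iff_exists_fun K).1 hA
    rw [← hev]
    exact h _ ⟨s, r, c, rfl⟩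

end Pool.Agent.X320.D4
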