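import Mathlib
import Pool.Agent.X320.D4.Closed

set_option autoImplicit false

/-!
The decomposition of the Fano scheme.
-/

namespace Pool.Agent.X320.D4

open Matrix Module

variable {K : Type*} [Field K]

lemma isClosed_of_closedPred {P : Submodule K (Matrix (Fin 5) (Fin 5) K) → Prop}
    (h : ClosedPred P) : IsClosed {V : Gr K | P V.1} := by
  obtain ⟨S, hS⟩ := h
  rw [isClosed_coinduced, isClosed_induced_iff]
  refine ⟨PrimeSpectrum.zeroLocus S, PrimeSpectrum.isClosed_zeroLocus S, ?_⟩
  ext v
  rw [Set.mem_preimage, Set.mem_preimage, PrimeSpectrum.mem_zeroLocus]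
  change S ⊆ (MvPolynomial.vanishingIdeal K {v.1} : Ideal _) ↔ P (spn v.1)
  rw [hS v.1]
  constructor
  · intro h p hp
    have := h hp
    rw [SetLike.mem_coe, MvPolynomial.mem_vanishingIdeal_singleton_iff] at this
    rwa [← MvPolynomial.coe_aeval_eq_eval]
  · intro h p hp
    rw [SetLike.mem_coe, MvPolynomial.mem_vanishingIdeal_singleton_iff]
    have := h p hp
    rwa [← MvPolynomial.coe_aeval_eq_eval] at this

lemma rank_le_of_comp {p q : ℕ} {V : Submodule K (Matrix (Fin 5) (Fin 5) K)} (h : Comp p q V)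
    {A : Matrix (Fin 5) (Fin 5) K} (hA : A ∈ V) : A.rank ≤ (5 - p) + (5 - q) := by
  obtain ⟨U, W, hU, hW, hall⟩ := h
  obtain ⟨U', hUU'⟩ := Submodule.exists_isCompl U
  have h1 := Submodule.finrank_add_eq_of_isCompl hUU'
  have h5 : finrank K (Fin 5 → K) = 5 := by simp
  have h2 : U.map A.mulVecLin ≤ ann W := by
    rintro _ ⟨u, hu, rfl⟩ w hw
    rw [Matrix.mulVecLin_apply, dotProduct_comm]
    exact hall A hA u hu w hw
  have h3 := Submodule.finrank_mono h2
  have h4 := finrank_ann W
  have h6 : finrank K (U'.map A.mulVecLin) ≤ finrank K U' := Submodule.finrank_map_le _ _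
  have h7 : LinearMap.range A.mulVecLin = U.map A.mulVecLin ⊔ U'.map A.mulVecLin := by
    rw [← Submodule.map_sup, hUU'.sup_eq_top, Submodule.map_top]
  have h8 := Submodule.finrank_add_le_finrank_add_finrank (U.map A.mulVecLin) (U'.map A.mulVecLin)
  rw [Matrix.rank, h7]
  omega

/-- an eleven-dimensional space of matrices with three nonzero rows -/
def exf (k : Fin 11) : Fin 5 × Fin 5 := (⟨k.1 / 5, by omega⟩, ⟨k.1 % 5, by omega⟩)

lemma exf_injective : Function.Injective exf := by
  intro a b hab
  simp only [exf, Prod.mk.injEq, Fin.mk.injEq] at hab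
  ext
  omega

noncomputable def exV (K : Type*) [Field K] : Gr K :=
  ⟨Submodule.span K (Set.range (Matrix.stdBasis K (Fin 5) (Fin 5) ∘ exf)), by
    rw [finrank_span_eq_card ((Matrix.stdBasis K (Fin 5) (Fin 5)).linearIndependent.comp _
      exf_injective), Fintype.card_fin]⟩

lemma comp_exV : Comp 5 2 (exV K).1 := by
  have hli : LinearIndependent K ((Pi.basisFun K (Fin 5)) ∘ ![(3 : Fin 5), 4]) :=
    (Pi.basisFun K (Fin 5)).linearIndependent.comp _ (by decide)
  refine ⟨⊤, Submodule.span K (Set.range ((Pi.basisFun K (Fin 5)) ∘ ![(3 : Fin 5), 4])),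
    by simp, ?_, ?_⟩
  · rw [finrank_span_eq_card hli, Fintype.card_fin]
  · intro B hB u _ w hw
    induction hB using Submodule.span_induction with
    | mem x hx =>
      obtain ⟨k, rfl⟩ := hx
      induction hw using Submodule.span_induction with
      | mem w hw =>
        obtain ⟨t, rfl⟩ := hw
        have h1 : (exf k).1 ≠ ![(3 : Fin 5), 4] t := by
          revert k t
          decide
        have h2 : Matrix.stdBasis K (Fin 5) (Fin 5) (exf k) =
            Matrix.single (exf k).1 (exf k).2 1 := Matrix.stdBasis_eq_single _ _ _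
        simp only [Function.comp_apply, Pi.basisFun_apply]
        rw [h2, single_dotProduct, one_mul, Matrix.single_mulVec]
        simp [h1.symm]
      | zero => exact zero_dotProduct _
      | add w₁ w₂ _ _ h₁ h₂ => rw [add_dotProduct, h₁, h₂, add_zero]
      | smul c w _ h => rw [smul_dotProduct, h, smul_zero]
    | zero => rw [Matrix.zero_mulVec, dotProduct_zero]
    | add x y _ _ hx hy => rw [Matrix.add_mulVec, dotProduct_add, hx, hy, add_zero]
    | smul c x _ hx => rw [Matrix.smul_mulVec, dotProduct_smul, hx, smul_zero]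

noncomputable def exW (K : Type*) [Field K] : Gr K :=
  ⟨(exV K).1.map trp, ((Matrix.transposeLinearEquiv (Fin 5) (Fin 5) K K).submoduleMap
      (exV K).1).finrank_eq.symm.trans (exV K).2⟩

lemma comp_exW : Comp 2 5 (exW K).1 := comp_transpose.2 comp_exV

theorem main (K : Type*) [Field K] [IsAlgClosed K] :
    let Z₁ : Set (Gr K) := {V | Comp 5 2 V.1 ∨ Comp 4 3 V.1}
    let Z₂ : Set (Gr K) := {V | Comp 3 4 V.1 ∨ Comp 2 5 V.1}
    IsClosed Z₁ ∧ IsClosed Z₂ ∧ Z₁.Nonempty ∧ Z₂.Nonempty ∧ Disjoint Z₁ Z₂ ∧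
      Z₁ ∪ Z₂ = Fano K := by
  intro Z₁ Z₂
  have hinf : Infinite K := IsAlgClosed.instInfinite
  refine ⟨?_, ?_, ⟨exV K, Or.inl comp_exV⟩, ⟨exW K, Or.inr comp_exW⟩, ?_, ?_⟩
  · exact (isClosed_of_closedPred closed_comp52).union (isClosed_of_closedPred closed_comp43)
  · exact (isClosed_of_closedPred closed_comp34).union (isClosed_of_closedPred closed_comp25)
  · rw [Set.disjoint_left]
    intro V h1 h2
    have := comp_disjoint V.1 h1 h2
    rw [V.2] at this
    omega
  · ext V
    constructor
    · intro h A hA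
      rw [← rank_le_iff_minors]
      rcases h with (h | h) | (h | h) <;> exact rank_le_of_comp h hA
    · intro h
      have h1 := classify5 V.1 (fun A hA => (rank_le_iff_minors A).2 (h A hA)) V.2.ge
      rcases h1 with h | h | h | h
      · exact Or.inl (Or.inl h)
      · exact Or.inl (Or.inr h)
      · exact Or.inr (Or.inl h)
      · exact Or.inr (Or.inr h)

end Pool.Agent.X320.D4
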